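import Pool.Agent.Q279.BZ.Defs

set_option autoImplicit false

namespace Q279.BZ
open Matrix Polynomial

lemma exists_lift_of_int (p : ℚ[X]) (h : HasIntCoeffs p) :
    ∃ p' : ℤ[X], p'.map (Int.castRingHom ℚ) = p := by
  rw [← mem_lifts, lifts_iff_coeff_lifts]
  intro n
  obtain ⟨z, hz⟩ := h n
  exact ⟨z, by rw [hz]; rfl⟩

lemma hasInt_map (u : ℤ[X]) : HasIntCoeffs (u.map (Int.castRingHom ℚ)) := by
  intro i
  exact ⟨u.coeff i, by rw [coeff_map]; rfl⟩

lemma bezout_set_iff (f g : ℤ[X]) (hf : f ≠ 0) (hg : g ≠ 0) (N : ℕ) (hN : 0 < N) :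
    (∃ p q : ℚ[X], IsBezoutPair f g p q ∧ HasIntCoeffs (C (N : ℚ) * p) ∧
      HasIntCoeffs (C (N : ℚ) * q)) ↔
    ∃ u v : ℤ[X], u.degree < (g.natDegree : WithBot ℕ) ∧ v.degree < (f.natDegree : WithBot ℕ) ∧
      f * u + g * v = C (N : ℤ) := by
  have hinj : Function.Injective (Int.castRingHom ℚ) := RingHom.injective_int _
  have hN0 : (N : ℚ) ≠ 0 := by exact_mod_cast hN.ne'
  constructor
  · rintro ⟨p, q, ⟨hpq, hp, hq⟩, hip, hiq⟩
    obtain ⟨u, hu⟩ := exists_lift_of_int _ hip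
    obtain ⟨v, hv⟩ := exists_lift_of_int _ hiq
    refine ⟨u, v, ?_, ?_, ?_⟩
    · rw [← degree_map_eq_of_injective hinj u, hu, degree_C_mul hN0, ← degree_eq_natDegree hg]
      exact hp
    · rw [← degree_map_eq_of_injective hinj v, hv, degree_C_mul hN0, ← degree_eq_natDegree hf]
      exact hq
    · apply Polynomial.map_injective _ hinj
      rw [Polynomial.map_add, Polynomial.map_mul, Polynomial.map_mul, hu, hv]
      have : f.map (Int.castRingHom ℚ) * (C (N : ℚ) * p) + g.map (Int.castRingHom ℚ) *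
          (C (N : ℚ) * q) = C (N : ℚ) * (p * f.map (Int.castRingHom ℚ) +
            q * g.map (Int.castRingHom ℚ)) := by ring
      rw [this, hpq, mul_one]
      simp
  · rintro ⟨u, v, hu, hv, huv⟩
    refine ⟨C ((N : ℚ)⁻¹) * u.map (Int.castRingHom ℚ), C ((N : ℚ)⁻¹) * v.map (Int.castRingHom ℚ),
      ⟨?_, ?_, ?_⟩, ?_, ?_⟩
    · have h1 := congrArg (Polynomial.map (Int.castRingHom ℚ)) huv
      rw [Polynomial.map_add, Polynomial.map_mul, Polynomial.map_mul, map_C] at h1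
      have h2 : C ((N : ℚ)⁻¹) * u.map (Int.castRingHom ℚ) * f.map (Int.castRingHom ℚ) +
          C ((N : ℚ)⁻¹) * v.map (Int.castRingHom ℚ) * g.map (Int.castRingHom ℚ) =
          C ((N : ℚ)⁻¹) * (f.map (Int.castRingHom ℚ) * u.map (Int.castRingHom ℚ) +
            g.map (Int.castRingHom ℚ) * v.map (Int.castRingHom ℚ)) := by ring
      rw [h2, h1, ← C_mul]
      have h3 : (N : ℚ)⁻¹ * (Int.castRingHom ℚ) (N : ℤ) = 1 := by
        simp [hN0]
      rw [h3, C_1]
    · rw [degree_C_mul (inv_ne_zero hN0), degree_map_eq_of_injective hinj, degree_eq_natDegree hg]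
      exact hu
    · rw [degree_C_mul (inv_ne_zero hN0), degree_map_eq_of_injective hinj, degree_eq_natDegree hf]
      exact hv
    · rw [← mul_assoc, ← C_mul, mul_inv_cancel₀ hN0, C_1, one_mul]
      exact hasInt_map u
    · rw [← mul_assoc, ← C_mul, mul_inv_cancel₀ hN0, C_1, one_mul]
      exact hasInt_map v

lemma cramer_map {R S : Type*} [CommRing R] [CommRing S] (φ : R →+* S) {ι : Type*} [Fintype ι]
    [DecidableEq ι] (A : Matrix ι ι R) (b : ι → R) (i : ι) :
    (A.map φ).cramer (fun j => φ (b j)) i = φ (A.cramer b i) := by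
  rw [cramer_apply, cramer_apply, RingHom.map_det]
  congr 1
  ext k l
  simp only [updateCol_apply, map_apply, RingHom.mapMatrix_apply]
  split_ifs <;> rfl

theorem B_eq_R_iff (f g : ℤ[X]) (hm : 1 ≤ f.natDegree) (hn : 1 ≤ g.natDegree)
    (hres : resultant f g ≠ 0) :
    bezoutB f g = resR f g ↔ ∀ (p : ℕ) [Fact p.Prime],
      Good f.natDegree g.natDegree (f.map (Int.castRingHom (ZMod p)))
        (g.map (Int.castRingHom (ZMod p))) := by
  have hf0 : f ≠ 0 := by rintro rfl; simp at hm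
  have hg0 : g ≠ 0 := by rintro rfl; simp at hn
  set m := f.natDegree with hmdef
  set n := g.natDegree with hndef
  set A := sylvester f g m n with hA
  set b := onev ℤ (m + n) with hb
  have hdet : A.det = resultant f g := rfl
  have hdet0 : A.det ≠ 0 := hres
  have hmn : 0 < m + n := by omega
  have hb0 : b ⟨0, hmn⟩ = 1 := by simp [hb, onev]
  -- membership
  have hmem : ∀ N : ℕ, (0 < N ∧ ∃ p q : ℚ[X], IsBezoutPair f g p q ∧
      HasIntCoeffs (C (N : ℚ) * p) ∧ HasIntCoeffs (C (N : ℚ) * q)) ↔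
      (0 < N ∧ ∃ x : Fin (m + n) → ℤ, A *ᵥ x = (N : ℤ) • b) := by
    intro N
    constructor
    · rintro ⟨hN, h⟩
      refine ⟨hN, ?_⟩
      rw [bezout_set_iff f g hf0 hg0 N hN] at h
      have h1 : (C (N : ℤ)).degree < ((m + n : ℕ) : WithBot ℕ) :=
        lt_of_le_of_lt degree_C_le (by exact_mod_cast hmn)
      obtain ⟨x, hx⟩ := (syl_image f g le_rfl le_rfl (C (N : ℤ)) h1).mpr h
      refine ⟨x, ?_⟩
      rw [hA, hx]
      ext i
      simp only [Pi.smul_apply, hb, onev, smul_eq_mul]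
      rw [← coeff_C_mul, mul_one]
    · rintro ⟨hN, x, hx⟩
      refine ⟨hN, ?_⟩
      rw [bezout_set_iff f g hf0 hg0 N hN]
      have h1 : (C (N : ℤ)).degree < ((m + n : ℕ) : WithBot ℕ) :=
        lt_of_le_of_lt degree_C_le (by exact_mod_cast hmn)
      apply (syl_image f g le_rfl le_rfl (C (N : ℤ)) h1).mp
      refine ⟨x, ?_⟩
      rw [← hA, hx]
      ext i
      simp only [Pi.smul_apply, hb, onev, smul_eq_mul]
      rw [← coeff_C_mul, mul_one]
  have hset : {N : ℕ | 0 < N ∧ ∃ p q : ℚ[X], IsBezoutPair f g p q ∧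
      HasIntCoeffs (C (N : ℚ) * p) ∧ HasIntCoeffs (C (N : ℚ) * q)} =
      {N : ℕ | 0 < N ∧ ∃ x : Fin (m + n) → ℤ, A *ᵥ x = (N : ℤ) • b} := by
    ext N; exact hmem N
  have hBdef : bezoutB f g = sInf {N : ℕ | 0 < N ∧ ∃ x : Fin (m + n) → ℤ, A *ᵥ x = (N : ℤ) • b} := by
    rw [← hset]; rfl
  have hRmem : A.det.natAbs ∈ {N : ℕ | 0 < N ∧ ∃ x : Fin (m + n) → ℤ, A *ᵥ x = (N : ℤ) • b} := by
    refine ⟨Int.natAbs_pos.mpr hdet0, ?_⟩
    rcases Int.natAbs_eq A.det with h | h
    · exact ⟨A.cramer b, by rw [← h]; exact Matrix.mulVec_cramer A b⟩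
    · refine ⟨-A.cramer b, ?_⟩
      rw [Matrix.mulVec_neg, Matrix.mulVec_cramer]
      have : ((A.det.natAbs : ℕ) : ℤ) = -A.det := by omega
      rw [this, neg_smul]
  have hR : resR f g = A.det.natAbs := rfl
  have hgood : ∀ (p : ℕ) [Fact p.Prime],
      Good m n (f.map (Int.castRingHom (ZMod p))) (g.map (Int.castRingHom (ZMod p))) ↔
      ∃ i, ¬ (p : ℤ) ∣ A.cramer b i := by
    intro p hp
    rw [good_iff_cramer _ _ (natDegree_map_le) (natDegree_map_le) hmn, sylvester_map_map]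
    have h1 : onev (ZMod p) (m + n) = fun j => (Int.castRingHom (ZMod p)) (b j) := by
      ext j
      simp only [hb, onev, coeff_one]
      split_ifs <;> simp
    rw [h1]
    have h2 : ∀ i, (((sylvester f g m n).map (Int.castRingHom (ZMod p))).cramer
        (fun j => (Int.castRingHom (ZMod p)) (b j))) i = ((A.cramer b i : ℤ) : ZMod p) := by
      intro i
      rw [cramer_map]; rfl
    constructor
    · intro h
      by_contra hcon
      push Not at hcon
      apply h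
      funext i
      refine (h2 i).trans ?_
      exact (ZMod.intCast_zmod_eq_zero_iff_dvd _ _).mpr (hcon i)
    · rintro ⟨i, hi⟩ h
      apply hi
      have := (h2 i).symm.trans (congrFun h i)
      exact (ZMod.intCast_zmod_eq_zero_iff_dvd _ _).mp this
  rw [hBdef, hR]
  constructor
  · intro h p hp
    rw [hgood p]
    by_contra hcon
    push Not at hcon
    obtain ⟨N, hN0, hN1, hN2⟩ := exists_smaller A b ⟨0, hmn⟩ hb0 hdet0 p hp.out hcon
    have h3 : sInf {N : ℕ | 0 < N ∧ ∃ x : Fin (m + n) → ℤ, A *ᵥ x = (N : ℤ) • b} ≤ N :=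
      Nat.sInf_le ⟨hN0, hN2⟩
    omega
  · intro h
    apply le_antisymm (Nat.sInf_le hRmem)
    have h1 := Nat.sInf_mem ⟨_, hRmem⟩
    obtain ⟨h2, x, hx⟩ := h1
    have h3 : A.det ∣ ((sInf {N : ℕ | 0 < N ∧ ∃ x : Fin (m + n) → ℤ, A *ᵥ x = (N : ℤ) • b} : ℕ) : ℤ) := by
      apply det_dvd_of_mem A b hdet0 _ _ x hx
      intro p hp
      have : Fact p.Prime := ⟨hp⟩
      exact (hgood p).mp (h p)
    have h4 := Int.natAbs_dvd_natAbs.mpr h3
    rw [Int.natAbs_natCast] at h4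
    exact Nat.le_of_dvd h2 h4

end Q279.BZ
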