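import Pool.Agent.Q279.BZ.Count

set_option autoImplicit false

namespace Q279.BZ
open Filter Topology

/-- allowed values: `1..H` for a leading coefficient, `-H..H` otherwise -/
noncomputable def iv (b : Bool) (H : ℕ) : Finset ℤ := if b then Finset.Ico 1 ((H : ℤ) + 1) else
  Finset.Ico (-(H : ℤ)) ((H : ℤ) + 1)

lemma card_iv_true (H : ℕ) : (iv true H).card = H := by simp [iv]
lemma card_iv_false (H : ℕ) : (iv false H).card = 2 * H + 1 := by
  simp only [iv, Bool.false_eq_true, if_false, Int.card_Ico]; omega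

lemma le_card_iv (b : Bool) (H : ℕ) : H ≤ (iv b H).card := by
  cases b
  · rw [card_iv_false]; omega
  · rw [card_iv_true]

lemma card_iv_le (b : Bool) (H : ℕ) : (iv b H).card ≤ 2 * H + 1 := by
  cases b
  · rw [card_iv_false]
  · rw [card_iv_true]; omega

lemma cnt_bounds' (a b : ℤ) (hab : a ≤ b) (M : ℕ) [NeZero M] (r : ZMod M) :
    |(((Finset.Ico a b).filter (fun x : ℤ => (x : ZMod M) = r)).card : ℝ) - ((b - a : ℤ) : ℝ) / M| ≤ 1 := by
  have hM : (0 : ℤ) < (M : ℤ) := by exact_mod_cast Nat.pos_of_ne_zero (NeZero.ne M)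
  have hMR : (0 : ℝ) < (M : ℝ) := by exact_mod_cast hM
  have h1 : (Finset.Ico a b).filter (fun x : ℤ => (x : ZMod M) = r) =
      (Finset.Ico a b).filter (fun x : ℤ => x ≡ (r.val : ℤ) [ZMOD (M : ℤ)]) := by
    ext x
    simp only [Finset.mem_filter, and_congr_right_iff]
    intro _
    rw [← ZMod.intCast_eq_intCast_iff]
    simp
  rw [h1]
  have h2 := Int.Ico_filter_modEq_card a b hM (r.val : ℤ)
  set c := ((Finset.Ico a b).filter (fun x : ℤ => x ≡ (r.val : ℤ) [ZMOD (M : ℤ)])).card with hc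
  have h3 : (⌈(b - (r.val : ℤ)) / ((M : ℤ) : ℚ)⌉ - ⌈(a - (r.val : ℤ)) / ((M : ℤ) : ℚ)⌉ : ℤ) ≥ 0 := by
    have : (⌈(a - (r.val : ℤ)) / ((M : ℤ) : ℚ)⌉ : ℤ) ≤ ⌈(b - (r.val : ℤ)) / ((M : ℤ) : ℚ)⌉ := by
      apply Int.ceil_le_ceil
      have hMQ : (0 : ℚ) < ((M : ℤ) : ℚ) := by exact_mod_cast hM
      have habQ : (a : ℚ) ≤ b := by exact_mod_cast hab
      apply div_le_div_of_nonneg_right _ hMQ.le
      linarith
    omega
  rw [max_eq_left h3] at h2
  have h4 := Int.ceil_lt_add_one ((b - (r.val : ℤ)) / ((M : ℤ) : ℚ) : ℚ)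
  have h5 := Int.le_ceil ((b - (r.val : ℤ)) / ((M : ℤ) : ℚ) : ℚ)
  have h6 := Int.ceil_lt_add_one ((a - (r.val : ℤ)) / ((M : ℤ) : ℚ) : ℚ)
  have h7 := Int.le_ceil ((a - (r.val : ℤ)) / ((M : ℤ) : ℚ) : ℚ)
  have h8 : ((c : ℤ) : ℚ) = (⌈(b - (r.val : ℤ)) / ((M : ℤ) : ℚ)⌉ : ℚ) -
      (⌈(a - (r.val : ℤ)) / ((M : ℤ) : ℚ)⌉ : ℚ) := by
    rw [h2]; push_cast; ring
  have h9 : ((b - (r.val : ℤ)) / ((M : ℤ) : ℚ) : ℚ) - ((a - (r.val : ℤ)) / ((M : ℤ) : ℚ) : ℚ) =
      ((b - a : ℤ) : ℚ) / M := by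
    push_cast; ring
  have h10 : |((c : ℤ) : ℚ) - ((b - a : ℤ) : ℚ) / M| ≤ 1 := by
    rw [abs_le]; constructor <;> linarith
  have h11 : ((|((c : ℤ) : ℚ) - ((b - a : ℤ) : ℚ) / M| : ℚ) : ℝ) ≤ ((1 : ℚ) : ℝ) := by
    exact_mod_cast h10
  push_cast at h11 ⊢
  exact h11

lemma cnt_bounds (s : Bool) (H : ℕ) (M : ℕ) [NeZero M] (r : ZMod M) :
    |(((iv s H).filter (fun x : ℤ => (x : ZMod M) = r)).card : ℝ) - ((iv s H).card : ℝ) / M| ≤ 1 := by
  cases s
  · have h := cnt_bounds' (-(H : ℤ)) ((H : ℤ) + 1) (by omega) M r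
    rw [card_iv_false]
    simp only [iv, Bool.false_eq_true, if_false]
    convert h using 3
    push_cast; ring
  · have h := cnt_bounds' 1 ((H : ℤ) + 1) (by omega) M r
    rw [card_iv_true]
    simp only [iv, if_true]
    convert h using 3
    push_cast; ring

lemma cnt_tendsto (s : Bool) (M : ℕ) [NeZero M] (r : ZMod M) :
    Tendsto (fun H : ℕ => (((iv s H).filter (fun x : ℤ => (x : ZMod M) = r)).card : ℝ) /
      ((iv s H).card : ℝ)) atTop (𝓝 ((M : ℝ)⁻¹)) := by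
  have h1 : Tendsto (fun H : ℕ => (1 : ℝ) / (H : ℝ)) atTop (𝓝 0) := tendsto_const_div_atTop_nhds_zero_nat 1
  rw [tendsto_iff_norm_sub_tendsto_zero]
  apply squeeze_zero' (Eventually.of_forall (fun _ => norm_nonneg _)) _ h1
  filter_upwards [eventually_ge_atTop 1] with H hH
  have hL : (H : ℝ) ≤ ((iv s H).card : ℝ) := by exact_mod_cast le_card_iv s H
  have hH' : (0 : ℝ) < H := by exact_mod_cast hH
  have hL0 : (0 : ℝ) < ((iv s H).card : ℝ) := lt_of_lt_of_le hH' hL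
  have h2 := cnt_bounds s H M r
  rw [Real.norm_eq_abs]
  have h3 : (((iv s H).filter (fun x : ℤ => (x : ZMod M) = r)).card : ℝ) / ((iv s H).card : ℝ) -
      (M : ℝ)⁻¹ = ((((iv s H).filter (fun x : ℤ => (x : ZMod M) = r)).card : ℝ) -
        ((iv s H).card : ℝ) / M) / ((iv s H).card : ℝ) := by
    field_simp
  rw [h3, abs_div, abs_of_pos hL0]
  calc _ ≤ 1 / ((iv s H).card : ℝ) := div_le_div_of_nonneg_right h2 hL0.le
    _ ≤ 1 / (H : ℝ) := one_div_le_one_div_of_le hH' hL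

section box
variable {ι : Type*} [Fintype ι] [DecidableEq ι]

/-- box of integer vectors -/
noncomputable def Box (s : ι → Bool) (H : ℕ) : Finset (ι → ℤ) := Fintype.piFinset (fun i => iv (s i) H)

lemma card_Box (s : ι → Bool) (H : ℕ) : (Box s H).card = ∏ i, (iv (s i) H).card :=
  Fintype.card_piFinset _

lemma card_Box_pos (s : ι → Bool) (H : ℕ) (hH : 1 ≤ H) : 0 < (Box s H).card := by
  rw [card_Box]
  apply Finset.prod_pos
  intro i _
  have := le_card_iv (s i) H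
  omega

lemma class_card (s : ι → Bool) (H : ℕ) (M : ℕ) (t : ι → ZMod M) :
    ((Box s H).filter (fun w => (fun i => (w i : ZMod M)) = t)).card =
    ∏ i, ((iv (s i) H).filter (fun x : ℤ => (x : ZMod M) = t i)).card := by
  rw [← Fintype.card_piFinset]
  congr 1
  ext w
  simp only [Box, Finset.mem_filter, Fintype.mem_piFinset, funext_iff]
  constructor
  · rintro ⟨h1, h2⟩ i
    exact ⟨h1 i, h2 i⟩
  · intro h
    exact ⟨fun i => (h i).1, fun i => (h i).2⟩

lemma res_card (s : ι → Bool) (H : ℕ) (M : ℕ) [NeZero M] (T : Finset (ι → ZMod M)) :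
    ((Box s H).filter (fun w => (fun i => (w i : ZMod M)) ∈ T)).card =
    ∑ t ∈ T, ∏ i, ((iv (s i) H).filter (fun x : ℤ => (x : ZMod M) = t i)).card := by
  rw [Finset.card_eq_sum_card_fiberwise (f := fun w : ι → ℤ => (fun i => (w i : ZMod M))) (t := T)]
  · apply Finset.sum_congr rfl
    intro t ht
    rw [← class_card]
    congr 1
    ext w
    simp only [Finset.mem_filter]
    constructor
    · rintro ⟨⟨h1, _⟩, h2⟩; exact ⟨h1, h2⟩
    · rintro ⟨h1, h2⟩; exact ⟨⟨h1, by rw [h2]; exact ht⟩, h2⟩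
  · intro w hw
    simp only [Finset.coe_filter, Set.mem_ofPred_eq] at hw
    exact hw.2

theorem res_tendsto (s : ι → Bool) (M : ℕ) [NeZero M] (T : Finset (ι → ZMod M)) :
    Tendsto (fun H : ℕ => (((Box s H).filter (fun w => (fun i => (w i : ZMod M)) ∈ T)).card : ℝ) /
      ((Box s H).card : ℝ)) atTop (𝓝 ((T.card : ℝ) * ((M : ℝ)⁻¹) ^ (Fintype.card ι))) := by
  have h1 : (fun H : ℕ => (((Box s H).filter (fun w => (fun i => (w i : ZMod M)) ∈ T)).card : ℝ) /
      ((Box s H).card : ℝ)) = fun H : ℕ => ∑ t ∈ T, ∏ i,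
        ((((iv (s i) H).filter (fun x : ℤ => (x : ZMod M) = t i)).card : ℝ) /
          ((iv (s i) H).card : ℝ)) := by
    ext H
    rw [res_card, card_Box]
    push_cast
    rw [Finset.sum_div]
    apply Finset.sum_congr rfl
    intro t _
    rw [Finset.prod_div_distrib]
  rw [h1]
  have h2 : (T.card : ℝ) * ((M : ℝ)⁻¹) ^ (Fintype.card ι) = ∑ t ∈ T, ∏ _i : ι, (M : ℝ)⁻¹ := by
    rw [Finset.sum_const, Finset.prod_const, Finset.card_univ, nsmul_eq_mul]
  rw [h2]
  apply tendsto_finsetSum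
  intro t _
  apply tendsto_finsetProd
  intro i _
  exact cnt_tendsto (s i) M (t i)

/-- upper bound for `p ≤ H` -/
lemma res_card_le (s : ι → Bool) (H p : ℕ) [NeZero p] (hp : p ≤ H) (T : Finset (ι → ZMod p)) :
    (((Box s H).filter (fun w => (fun i => (w i : ZMod p)) ∈ T)).card : ℝ) ≤
    (T.card : ℝ) * (2 / (p : ℝ)) ^ (Fintype.card ι) * ((Box s H).card : ℝ) := by
  rw [res_card, card_Box]
  push_cast
  have hp0 : (0 : ℝ) < p := by exact_mod_cast Nat.pos_of_ne_zero (NeZero.ne p)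
  have h1 : ∀ t ∈ T, ∏ i, ((((iv (s i) H).filter (fun x : ℤ => (x : ZMod p) = t i)).card : ℕ) : ℝ) ≤
      (2 / (p : ℝ)) ^ (Fintype.card ι) * ∏ i, (((iv (s i) H).card : ℕ) : ℝ) := by
    intro t _
    have h2 : (2 / (p : ℝ)) ^ (Fintype.card ι) * ∏ i, (((iv (s i) H).card : ℕ) : ℝ) =
        ∏ i, ((2 / (p : ℝ)) * (((iv (s i) H).card : ℕ) : ℝ)) := by
      rw [Finset.prod_mul_distrib, Finset.prod_const, Finset.card_univ]
    rw [h2]
    apply Finset.prod_le_prod
    · intro i _; positivity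
    · intro i _
      have h3 := (abs_le.mp (cnt_bounds (s i) H p (t i))).2
      have h4 : (p : ℝ) ≤ ((iv (s i) H).card : ℝ) := by
        exact_mod_cast hp.trans (le_card_iv (s i) H)
      have h5 : 1 ≤ ((iv (s i) H).card : ℝ) / p := by
        rw [le_div_iff₀ hp0]; linarith
      have h6 : 2 / (p : ℝ) * ((iv (s i) H).card : ℝ) = ((iv (s i) H).card : ℝ) / p +
        ((iv (s i) H).card : ℝ) / p := by ring
      rw [h6]
      linarith
  calc _ ≤ ∑ t ∈ T, (2 / (p : ℝ)) ^ (Fintype.card ι) * ∏ i, (((iv (s i) H).card : ℕ) : ℝ) :=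
        Finset.sum_le_sum h1
    _ = _ := by rw [Finset.sum_const, nsmul_eq_mul]; ring

open Classical in
/-- CRT: joint density -/
theorem crt_tendsto (s : ι → Bool) (P : Finset ℕ) (hP : ∀ p ∈ P, p.Prime)
    (G : ∀ p : ℕ, (ι → ZMod p) → Prop) :
    Tendsto (fun H : ℕ => ((((Box s H).filter (fun w : ι → ℤ => ∀ p ∈ P, G p (fun i => (w i : ZMod p)))).card : ℕ) : ℝ) /
      ((Box s H).card : ℝ)) atTop
      (𝓝 (∏ p ∈ P, ((Nat.card {t : ι → ZMod p // G p t} : ℝ) * ((p : ℝ)⁻¹) ^ (Fintype.card ι)))) := by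
  classical
  set a : P → ℕ := fun p => (p : ℕ) with ha
  have hcop : Pairwise (Function.onFun Nat.Coprime a) := by
    intro p q hpq
    apply (Nat.coprime_primes (hP p p.2) (hP q q.2)).mpr
    intro h; apply hpq; exact Subtype.ext h
  set M := ∏ p : P, a p with hM
  have hM0 : M ≠ 0 := by
    rw [hM, Finset.prod_ne_zero_iff]
    intro p _
    exact (hP p p.2).ne_zero
  have : NeZero M := ⟨hM0⟩
  set e := ZMod.prodEquivPi a hcop with he
  have hecast : ∀ (x : ℤ) (p : P), e (x : ZMod M) p = (x : ZMod p) := by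
    intro x p
    rw [he, map_intCast]; rfl
  set T : Finset (ι → ZMod M) := Finset.univ.filter (fun t => ∀ p : P, G p (fun i => e (t i) p)) with hT
  have h1 := res_tendsto s M T
  have h2 : ∀ H : ℕ, (Box s H).filter (fun w : ι → ℤ => ∀ p ∈ P, G p (fun i => (w i : ZMod p))) =
      (Box s H).filter (fun w : ι → ℤ => (fun i => (w i : ZMod M)) ∈ T) := by
    intro H
    ext w
    simp only [Finset.mem_filter, hT, Finset.mem_univ, true_and, hecast]
    constructor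
    · rintro ⟨h3, h4⟩; exact ⟨h3, fun p => h4 p p.2⟩
    · rintro ⟨h3, h4⟩; exact ⟨h3, fun p hp => h4 ⟨p, hp⟩⟩
  have h3 : (T.card : ℝ) * ((M : ℝ)⁻¹) ^ (Fintype.card ι) =
      ∏ p ∈ P, ((Nat.card {t : ι → ZMod p // G p t} : ℝ) * ((p : ℝ)⁻¹) ^ (Fintype.card ι)) := by
    have h4 : T.card = ∏ p : P, Nat.card {t : ι → ZMod p // G p t} := by
      have h5 : T.card = Nat.card {t : ι → ZMod M // ∀ p : P, G p (fun i => e (t i) p)} := by
        rw [Nat.card_eq_fintype_card, Fintype.card_subtype]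
      rw [h5, ← Nat.card_pi]
      apply Nat.card_congr
      refine Equiv.trans ?_ Equiv.subtypePiEquivPi
      exact Equiv.subtypeEquiv ((Equiv.arrowCongr (Equiv.refl ι) e.toEquiv).trans
        (Equiv.piComm (fun (_ : ι) (p : P) => ZMod p))) (fun t => Iff.rfl)
    rw [h4, hM]
    push_cast
    rw [← Finset.prod_inv_distrib, ← Finset.prod_pow, ← Finset.prod_mul_distrib]
    rw [← Finset.prod_coe_sort P (fun p => ((Nat.card {t : ι → ZMod p // G p t} : ℝ) *
      ((p : ℝ)⁻¹) ^ (Fintype.card ι)))]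
  rw [← h3]
  refine h1.congr ?_
  intro H
  congr 2
  have := h2 H
  convert congrArg Finset.card this.symm using 2

end box

end Q279.BZ
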