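import Pool.Agent.Q279.BZ.Local

set_option autoImplicit false

set_option linter.unusedSectionVars false

namespace Q279.BZ
open Polynomial

section count
variable (K : Type*) [Field K] [Fintype K]

lemma finite_degreeLT (k : ℕ) : ((degreeLT K k : Submodule K K[X]) : Set K[X]).Finite := by
  have : Finite (degreeLT K k) := Finite.of_equiv _ (degreeLTEquiv K k).toEquiv.symm
  exact Set.toFinite _

lemma ncard_degreeLT (k : ℕ) :
    ((degreeLT K k : Submodule K K[X]) : Set K[X]).ncard = Fintype.card K ^ k := by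
  have h := Nat.card_congr (degreeLTEquiv K k).toEquiv
  rw [Nat.card_fun, Nat.card_fin, Nat.card_eq_fintype_card (α := K)] at h
  exact h

/-- nonzero polynomials of degree `< k` -/
def NN (k : ℕ) : Set K[X] := {f | f ≠ 0 ∧ f.degree < (k : WithBot ℕ)}

lemma NN_eq (k : ℕ) : NN K k = ((degreeLT K k : Submodule K K[X]) : Set K[X]) \ {0} := by
  ext f
  simp [NN, Polynomial.mem_degreeLT, and_comm]

lemma finite_NN (k : ℕ) : (NN K k).Finite := by
  rw [NN_eq]; exact (finite_degreeLT K k).sdiff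

lemma ncard_NN (k : ℕ) : (NN K k).ncard = Fintype.card K ^ k - 1 := by
  rw [NN_eq, Set.ncard_sdiff_singleton_of_mem (by simp), ncard_degreeLT]

lemma NN_mono {k l : ℕ} (h : k ≤ l) : NN K k ⊆ NN K l := by
  intro f hf
  exact ⟨hf.1, lt_of_lt_of_le hf.2 (by exact_mod_cast h)⟩

/-- pairs of nonzero polynomials of degree `≤ m`, `≤ n`, one of the bounds attained -/
def AA (m n : ℕ) : Set (K[X] × K[X]) := (NN K (m + 1) ×ˢ NN K (n + 1)) \ (NN K m ×ˢ NN K n)

lemma finite_AA (m n : ℕ) : (AA K m n).Finite := ((finite_NN K _).prod (finite_NN K _)).sdiff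

lemma ncard_AA (m n : ℕ) : (AA K m n).ncard + (Fintype.card K ^ m - 1) * (Fintype.card K ^ n - 1) =
    (Fintype.card K ^ (m + 1) - 1) * (Fintype.card K ^ (n + 1) - 1) := by
  have hsub : NN K m ×ˢ NN K n ⊆ NN K (m + 1) ×ˢ NN K (n + 1) :=
    Set.prod_mono (NN_mono K (Nat.le_succ m)) (NN_mono K (Nat.le_succ n))
  have h := Set.ncard_sdiff_add_ncard_of_subset hsub ((finite_NN K _).prod (finite_NN K _))
  rw [Set.ncard_prod, Set.ncard_prod, ncard_NN, ncard_NN, ncard_NN, ncard_NN] at h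
  exact h

variable {K}

lemma mem_AA {m n : ℕ} {x : K[X] × K[X]} : x ∈ AA K m n ↔
    x.1 ≠ 0 ∧ x.2 ≠ 0 ∧ x.1.natDegree ≤ m ∧ x.2.natDegree ≤ n ∧
      (x.1.natDegree = m ∨ x.2.natDegree = n) := by
  simp only [AA, NN, Set.mem_sdiff, Set.mem_prod, Set.mem_ofPred_eq, not_and, not_lt]
  constructor
  · rintro ⟨⟨⟨h1, h2⟩, h3, h4⟩, h5⟩
    rw [← natDegree_lt_iff_degree_lt h1] at h2
    rw [← natDegree_lt_iff_degree_lt h3] at h4
    refine ⟨h1, h3, by omega, by omega, ?_⟩
    by_contra hcon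
    push Not at hcon
    have h6 : x.1.degree < (m : WithBot ℕ) := by
      rw [← natDegree_lt_iff_degree_lt h1]; omega
    have h7 : x.2.degree < (n : WithBot ℕ) := by
      rw [← natDegree_lt_iff_degree_lt h3]; omega
    have h8 := h5 ⟨h1, h6⟩ h3
    exact absurd h7 (not_lt.mpr h8)
  · rintro ⟨h1, h3, h2, h4, h5⟩
    refine ⟨⟨⟨h1, ?_⟩, h3, ?_⟩, ?_⟩
    · rw [← natDegree_lt_iff_degree_lt h1]; omega
    · rw [← natDegree_lt_iff_degree_lt h3]; omega
    · rintro ⟨h6, h7⟩ h8
      rw [← natDegree_lt_iff_degree_lt h6] at h7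
      rw [degree_eq_natDegree h8]
      have : n ≤ x.2.natDegree := by omega
      exact_mod_cast this

open Classical in
/-- degree of the gcd -/
noncomputable def dg (x : K[X] × K[X]) : ℕ := (EuclideanDomain.gcd x.1 x.2).natDegree

lemma gcd_inst (i1 i2 : DecidableEq K[X]) (a b : K[X]) :
    @EuclideanDomain.gcd K[X] _ i1 a b = @EuclideanDomain.gcd K[X] _ i2 a b := by
  have : i1 = i2 := Subsingleton.elim _ _
  rw [this]

lemma dg_eq [DecidableEq K] (x : K[X] × K[X]) :
    dg x = (EuclideanDomain.gcd x.1 x.2).natDegree :=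
  congrArg natDegree (gcd_inst _ _ x.1 x.2)

lemma dg_eq_of_associated (x : K[X] × K[X]) (h : K[X]) (h1 : h ∣ x.1) (h2 : h ∣ x.2)
    (h3 : ∃ a b, h = x.1 * a + x.2 * b) : dg x = h.natDegree := by
  classical
  rw [dg_eq]
  apply natDegree_eq_of_degree_eq
  apply degree_eq_degree_of_associated
  apply associated_of_dvd_dvd
  · obtain ⟨a, b, hab⟩ := h3
    rw [hab]
    exact dvd_add ((EuclideanDomain.gcd_dvd_left _ _).mul_right a)
      ((EuclideanDomain.gcd_dvd_right _ _).mul_right b)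
  · exact EuclideanDomain.dvd_gcd h1 h2

lemma coprime_of_dg_zero {x : K[X] × K[X]} (h0 : x.1 ≠ 0) (h : dg x = 0) :
    ∃ a b, 1 = x.1 * a + x.2 * b := by
  classical
  rw [dg_eq] at h
  have h1 : EuclideanDomain.gcd x.1 x.2 ≠ 0 := by
    intro h2
    rw [EuclideanDomain.gcd_eq_zero_iff] at h2
    exact h0 h2.1
  have h2 : IsUnit (EuclideanDomain.gcd x.1 x.2) := by
    rw [isUnit_iff_degree_eq_zero, degree_eq_natDegree h1, h]; rfl
  obtain ⟨w, hw⟩ := h2.exists_right_inv
  have hbez := EuclideanDomain.gcd_eq_gcd_ab x.1 x.2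
  refine ⟨EuclideanDomain.gcdA x.1 x.2 * w, EuclideanDomain.gcdB x.1 x.2 * w, ?_⟩
  rw [← hw]
  nth_rewrite 1 [hbez]
  ring

lemma dg_le {m n : ℕ} {x : K[X] × K[X]} (hx : x ∈ AA K m n) : dg x ≤ min m n := by
  classical
  rw [mem_AA] at hx
  rw [dg_eq]
  have h1 := natDegree_le_of_dvd (EuclideanDomain.gcd_dvd_left x.1 x.2) hx.1
  have h2 := natDegree_le_of_dvd (EuclideanDomain.gcd_dvd_right x.1 x.2) hx.2.1
  have := hx.2.2.1
  have := hx.2.2.2.1
  omega

variable (K)

/-- coprime pairs -/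
def CC (m n : ℕ) : Set (K[X] × K[X]) := {x ∈ AA K m n | dg x = 0}

lemma finite_CC (m n : ℕ) : (CC K m n).Finite := (finite_AA K m n).subset (fun _ hx => hx.1)

/-- monic of degree `d` -/
def MM (d : ℕ) : Set K[X] := {h | h.Monic ∧ h.natDegree = d}

lemma ncard_MM (d : ℕ) : (MM K d).ncard = Fintype.card K ^ d := by
  have h := Nat.card_congr ((monicEquivDegreeLT d).trans (degreeLTEquiv K d).toEquiv)
  rw [Nat.card_fun, Nat.card_fin, Nat.card_eq_fintype_card (α := K)] at h
  exact h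

lemma ncard_fiber (m n d : ℕ) :
    {x ∈ AA K (m + d) (n + d) | dg x = d}.ncard = Fintype.card K ^ d * (CC K m n).ncard := by
  classical
  have himg : {x ∈ AA K (m + d) (n + d) | dg x = d} =
      (fun y : K[X] × (K[X] × K[X]) => (y.1 * y.2.1, y.1 * y.2.2)) '' (MM K d ×ˢ CC K m n) := by
    ext x
    constructor
    · rintro ⟨hx, hd⟩
      rw [mem_AA] at hx
      obtain ⟨hx1, hx2, hx3, hx4, hx5⟩ := hx
      set h0 := EuclideanDomain.gcd x.1 x.2 with hh0
      have hd0 : h0.natDegree = d := by rw [← hd, dg_eq]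
      have hh0ne : h0 ≠ 0 := by
        intro h2
        rw [hh0, EuclideanDomain.gcd_eq_zero_iff] at h2
        exact hx1 h2.1
      have hlc : h0.leadingCoeff ≠ 0 := leadingCoeff_ne_zero.mpr hh0ne
      set h := h0 * C (h0.leadingCoeff⁻¹) with hh
      have hmon : h.Monic := monic_mul_leadingCoeff_inv hh0ne
      have hnd : h.natDegree = d := by
        rw [hh, natDegree_mul_C (inv_ne_zero hlc), hd0]
      have hu : IsUnit (C (h0.leadingCoeff⁻¹) : K[X]) := isUnit_C.mpr (isUnit_iff_ne_zero.mpr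
        (inv_ne_zero hlc))
      have hd1 : h ∣ x.1 := (hu.mul_right_dvd).mpr (EuclideanDomain.gcd_dvd_left _ _)
      have hd2 : h ∣ x.2 := (hu.mul_right_dvd).mpr (EuclideanDomain.gcd_dvd_right _ _)
      obtain ⟨u, hu1⟩ := hd1
      obtain ⟨v, hv1⟩ := hd2
      have hne : h ≠ 0 := hmon.ne_zero
      have hu0 : u ≠ 0 := by rintro rfl; rw [mul_zero] at hu1; exact hx1 hu1
      have hv0 : v ≠ 0 := by rintro rfl; rw [mul_zero] at hv1; exact hx2 hv1
      have hn1 : x.1.natDegree = d + u.natDegree := by rw [hu1, natDegree_mul hne hu0, hnd]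
      have hn2 : x.2.natDegree = d + v.natDegree := by rw [hv1, natDegree_mul hne hv0, hnd]
      refine ⟨(h, (u, v)), ⟨⟨hmon, hnd⟩, ?_, ?_⟩, ?_⟩
      · rw [mem_AA]
        refine ⟨hu0, hv0, ?_, ?_, ?_⟩
        · show u.natDegree ≤ m
          omega
        · show v.natDegree ≤ n
          omega
        · show u.natDegree = m ∨ v.natDegree = n
          omega
      · -- coprime
        have h1 : dg (u, v) = (1 : K[X]).natDegree := by
          apply dg_eq_of_associated
          · exact one_dvd _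
          · exact one_dvd _
          · refine ⟨EuclideanDomain.gcdA x.1 x.2 * C (h0.leadingCoeff⁻¹),
              EuclideanDomain.gcdB x.1 x.2 * C (h0.leadingCoeff⁻¹), ?_⟩
            apply mul_left_cancel₀ hne
            have h2 : h * ((u, v).1 * (EuclideanDomain.gcdA x.1 x.2 * C (h0.leadingCoeff⁻¹)) +
                (u, v).2 * (EuclideanDomain.gcdB x.1 x.2 * C (h0.leadingCoeff⁻¹))) =
                ((h * u) * EuclideanDomain.gcdA x.1 x.2 + (h * v) * EuclideanDomain.gcdB x.1 x.2) *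
                  C (h0.leadingCoeff⁻¹) := by
              dsimp only; ring
            rw [h2, ← hu1, ← hv1, ← EuclideanDomain.gcd_eq_gcd_ab, mul_one]
        rw [h1, natDegree_one]
      · dsimp only
        rw [← hu1, ← hv1]
    · rintro ⟨⟨h, u, v⟩, ⟨⟨hmon, hnd⟩, hC, hdg⟩, rfl⟩
      rw [mem_AA] at hC
      obtain ⟨hu0, hv0, hu1, hv1, huv⟩ := hC
      dsimp only at hmon hnd hu0 hv0 hu1 hv1 huv
      have hne : h ≠ 0 := hmon.ne_zero
      refine ⟨?_, ?_⟩
      · rw [mem_AA]
        dsimp only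
        rw [natDegree_mul hne hu0, natDegree_mul hne hv0, hnd]
        refine ⟨mul_ne_zero hne hu0, mul_ne_zero hne hv0, by omega, by omega, by omega⟩
      · rw [← hnd]
        obtain ⟨a, b, hab⟩ := coprime_of_dg_zero (x := (u, v)) hu0 hdg
        apply dg_eq_of_associated
        · exact dvd_mul_right _ _
        · exact dvd_mul_right _ _
        · refine ⟨a, b, ?_⟩
          dsimp only at hab ⊢
          calc h = h * 1 := (mul_one h).symm
            _ = h * (u * a + v * b) := by rw [← hab]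
            _ = _ := by ring
  rw [himg, Set.InjOn.ncard_image, Set.ncard_prod, ncard_MM]
  rintro ⟨h, u, v⟩ ⟨⟨hmon, hnd⟩, hC, hdg⟩ ⟨h', u', v'⟩ ⟨⟨hmon', hnd'⟩, hC', hdg'⟩ heq
  simp only [Prod.mk.injEq] at heq
  rw [mem_AA] at hC hC'
  dsimp only at hmon hnd hmon' hnd' hC hC' heq
  obtain ⟨a, b, hab⟩ := coprime_of_dg_zero (x := (u, v)) hC.1 hdg
  obtain ⟨a', b', hab'⟩ := coprime_of_dg_zero (x := (u', v')) hC'.1 hdg'
  dsimp only at hab hab'
  have h1 : h ∣ h' := by
    have : h' = (h * u) * a' + (h * v) * b' := by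
      rw [heq.1, heq.2]
      calc h' = h' * 1 := (mul_one h').symm
        _ = h' * (u' * a' + v' * b') := by rw [← hab']
        _ = _ := by ring
    rw [this]
    exact dvd_add (Dvd.intro _ (by ring : h * (u * a') = _)) (Dvd.intro _ (by ring : h * (v * b') = _))
  have h2 : h' ∣ h := by
    have : h = (h' * u') * a + (h' * v') * b := by
      rw [← heq.1, ← heq.2]
      calc h = h * 1 := (mul_one h).symm
        _ = h * (u * a + v * b) := by rw [← hab]
        _ = _ := by ring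
    rw [this]
    exact dvd_add (Dvd.intro _ (by ring : h' * (u' * a) = _)) (Dvd.intro _ (by ring : h' * (v' * b) = _))
  have h3 : h = h' := eq_of_monic_of_associated hmon hmon' (associated_of_dvd_dvd h1 h2)
  subst h3
  have hne : h ≠ 0 := hmon.ne_zero
  rw [mul_left_cancel₀ hne heq.1, mul_left_cancel₀ hne heq.2]

lemma ncard_AA_sum (m n : ℕ) : (AA K m n).ncard =
    ∑ d ∈ Finset.range (min m n + 1), Fintype.card K ^ d * (CC K (m - d) (n - d)).ncard := by
  have h1 : AA K m n = ⋃ d ∈ Finset.range (min m n + 1), {x ∈ AA K m n | dg x = d} := by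
    ext x
    simp only [Finset.mem_range, Set.mem_iUnion, Set.mem_sep_iff, exists_prop]
    constructor
    · intro hx
      exact ⟨dg x, by have := dg_le hx; omega, hx, rfl⟩
    · rintro ⟨d, _, hx, _⟩
      exact hx
  have hfin := finite_AA K m n
  classical
  rw [Set.ncard_eq_toFinset_card _ hfin]
  rw [Finset.card_eq_sum_card_fiberwise (f := dg) (t := Finset.range (min m n + 1))]
  · apply Finset.sum_congr rfl
    intro d hd
    rw [Finset.mem_range] at hd
    have h2 := ncard_fiber K (m - d) (n - d) d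
    rw [Nat.sub_add_cancel (by omega), Nat.sub_add_cancel (by omega)] at h2
    rw [← h2]
    rw [Set.ncard_eq_toFinset_card _ (hfin.subset (fun _ hx => hx.1))]
    congr 1
    ext x
    simp
  · intro x hx
    simp only [Set.Finite.coe_toFinset] at hx
    have := dg_le hx
    simp only [Finset.coe_range, Set.mem_Iio]
    omega

lemma ncard_CC_succ (m n : ℕ) : (AA K (m + 1) (n + 1)).ncard =
    (CC K (m + 1) (n + 1)).ncard + Fintype.card K * (AA K m n).ncard := by
  rw [ncard_AA_sum K (m + 1) (n + 1), ncard_AA_sum K m n]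
  have h1 : min (m + 1) (n + 1) = min m n + 1 := by omega
  rw [h1, Finset.sum_range_succ', Finset.mul_sum, add_comm]
  congr 1
  · simp
  · apply Finset.sum_congr rfl
    intro d _
    rw [Nat.add_sub_add_right, Nat.add_sub_add_right, pow_succ]
    ring

end count

section vec

/-- polynomial with coefficient vector `v` -/
noncomputable def pv {R : Type*} [CommRing R] {k : ℕ} (v : Fin k → R) : R[X] :=
  ∑ i : Fin k, C (v i) * X ^ (i : ℕ)

lemma coeff_pv {R : Type*} [CommRing R] {k : ℕ} (v : Fin k → R) (j : ℕ) :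
    (pv v).coeff j = if h : j < k then v ⟨j, h⟩ else 0 := by
  simp only [pv, finsetSum_coeff, coeff_C_mul, coeff_X_pow]
  split_ifs with h
  · rw [Finset.sum_eq_single ⟨j, h⟩]
    · simp
    · intro b _ hb
      rw [if_neg, mul_zero]
      intro h2; apply hb; ext; exact h2.symm
    · simp
  · apply Finset.sum_eq_zero
    intro b _
    rw [if_neg, mul_zero]
    have := b.2; omega

lemma map_pv {R S : Type*} [CommRing R] [CommRing S] (φ : R →+* S) {k : ℕ} (v : Fin k → R) :
    (pv v).map φ = pv (fun i => φ (v i)) := by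
  simp [pv, Polynomial.map_sum]

lemma pv_injective {R : Type*} [CommRing R] {k : ℕ} :
    Function.Injective (pv : (Fin k → R) → R[X]) := by
  intro v w h
  ext i
  have := congrArg (fun f => f.coeff i) h
  simpa [coeff_pv] using this

lemma degree_pv_lt {R : Type*} [CommRing R] {k : ℕ} (v : Fin k → R) :
    (pv v).degree < (k : WithBot ℕ) := by
  rw [degree_lt_iff_coeff_zero]
  intro j hj
  rw [coeff_pv, dif_neg (by omega)]

lemma natDegree_pv_le {R : Type*} [CommRing R] {k : ℕ} (v : Fin (k + 1) → R) :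
    (pv v).natDegree ≤ k := by
  rw [natDegree_le_iff_coeff_eq_zero]
  intro j hj
  rw [coeff_pv, dif_neg (by omega)]

lemma exists_pv {R : Type*} [CommRing R] {k : ℕ} (f : R[X]) (h : f.degree < (k : WithBot ℕ)) :
    ∃ v : Fin k → R, pv v = f := by
  refine ⟨fun i => f.coeff i, ?_⟩
  ext j
  rw [coeff_pv]
  split_ifs with hj
  · rfl
  · rw [degree_lt_iff_coeff_zero] at h
    exact (h j (by omega)).symm

end vec

section good
variable {K : Type*} [Field K] [Fintype K]

lemma good_iff_mem (m n : ℕ) (hm : 2 ≤ m) (hn : 2 ≤ n) (f g : K[X]) (hf : f.natDegree ≤ m)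
    (hg : g.natDegree ≤ n) : Good m n f g ↔ (f, g) ∈ AA K m n ∧ dg (f, g) ≤ 1 := by
  classical
  rw [good_iff_gcd f g hf hg (by omega) (by omega), dg_eq, mem_AA]
  dsimp only
  constructor
  · rintro ⟨h1, h2⟩
    refine ⟨?_, h2⟩
    have hf0 : f ≠ 0 := by
      rintro rfl
      rw [EuclideanDomain.gcd_zero_left] at h2
      rcases h1 with h3 | h3
      · simp at h3
      · have := le_natDegree_of_ne_zero h3
        omega
    have hg0 : g ≠ 0 := by
      rintro rfl
      rw [EuclideanDomain.gcd_zero_right] at h2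
      rcases h1 with h3 | h3
      · have := le_natDegree_of_ne_zero h3
        omega
      · simp at h3
    refine ⟨hf0, hg0, hf, hg, ?_⟩
    rcases h1 with h3 | h3
    · left; exact le_antisymm hf (le_natDegree_of_ne_zero h3)
    · right; exact le_antisymm hg (le_natDegree_of_ne_zero h3)
  · rintro ⟨⟨h1, h2, h3, h4, h5⟩, h6⟩
    refine ⟨?_, h6⟩
    rcases h5 with h7 | h7
    · left; rw [← h7]; exact leadingCoeff_ne_zero.mpr h1
    · right; rw [← h7]; exact leadingCoeff_ne_zero.mpr h2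

lemma ncard_dg_le_one (m n : ℕ) : {x ∈ AA K (m + 2) (n + 2) | dg x ≤ 1}.ncard +
    Fintype.card K ^ 2 * (AA K m n).ncard = (AA K (m + 2) (n + 2)).ncard := by
  have h1 : {x ∈ AA K (m + 2) (n + 2) | dg x ≤ 1} = CC K (m + 2) (n + 2) ∪
      {x ∈ AA K (m + 2) (n + 2) | dg x = 1} := by
    ext x
    simp only [CC, Set.mem_union, Set.mem_sep_iff]
    constructor
    · rintro ⟨h2, h3⟩
      have : dg x = 0 ∨ dg x = 1 := by omega
      rcases this with h | h
      · left; exact ⟨h2, h⟩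
      · right; exact ⟨h2, h⟩
    · rintro (⟨h2, h3⟩ | ⟨h2, h3⟩)
      · exact ⟨h2, by omega⟩
      · exact ⟨h2, by omega⟩
  have hdisj : Disjoint (CC K (m + 2) (n + 2)) {x ∈ AA K (m + 2) (n + 2) | dg x = 1} := by
    rw [Set.disjoint_left]
    rintro x ⟨_, h2⟩ ⟨_, h3⟩
    omega
  have hfin2 : {x ∈ AA K (m + 2) (n + 2) | dg x = 1}.Finite :=
    (finite_AA K _ _).subset (fun _ hx => hx.1)
  rw [h1, Set.ncard_union_eq hdisj (finite_CC K _ _) hfin2]
  have h2 := ncard_fiber K (m + 1) (n + 1) 1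
  have h3 := ncard_CC_succ K (m + 1) (n + 1)
  have h4 := ncard_CC_succ K m n
  rw [h2, h3, h4]
  ring

/-- number of good coefficient vectors -/
theorem card_good (m n : ℕ) (hm : 2 ≤ m) (hn : 2 ≤ n) :
    (Nat.card {w : Fin (m + 1) ⊕ Fin (n + 1) → K //
      Good m n (pv (fun i => w (Sum.inl i))) (pv (fun i => w (Sum.inr i)))} : ℝ) =
    (Fintype.card K : ℝ) ^ (m + n + 2) * (1 - ((Fintype.card K : ℝ) ^ 2)⁻¹) ^ 2 := by
  obtain ⟨m, rfl⟩ := Nat.exists_eq_add_of_le' hm
  obtain ⟨n, rfl⟩ := Nat.exists_eq_add_of_le' hn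
  set q := Fintype.card K with hq
  have hq1 : 1 < q := Fintype.one_lt_card
  have h1 : Nat.card {w : Fin (m + 2 + 1) ⊕ Fin (n + 2 + 1) → K //
      Good (m + 2) (n + 2) (pv (fun i => w (Sum.inl i))) (pv (fun i => w (Sum.inr i)))} =
      {x ∈ AA K (m + 2) (n + 2) | dg x ≤ 1}.ncard := by
    rw [← Nat.card_coe_set_eq]
    apply Nat.card_eq_of_bijective (fun w => ⟨(pv (fun i => w.1 (Sum.inl i)),
      pv (fun i => w.1 (Sum.inr i))), by
        have := (good_iff_mem (m + 2) (n + 2) (by omega) (by omega) _ _ (natDegree_pv_le _)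
          (natDegree_pv_le _)).mp w.2
        exact this⟩)
    constructor
    · intro w w' h
      simp only [Subtype.mk.injEq, Prod.mk.injEq] at h
      have h1 := pv_injective h.1
      have h2 := pv_injective h.2
      ext i
      rcases i with i | i
      · exact congrFun h1 i
      · exact congrFun h2 i
    · rintro ⟨⟨f, g⟩, hx, hd⟩
      have hx' := mem_AA.mp hx
      dsimp only at hx'
      obtain ⟨h1, h2, h3, h4, h5⟩ := hx'
      obtain ⟨u, hu⟩ := exists_pv (k := m + 2 + 1) f (by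
        rw [← natDegree_lt_iff_degree_lt h1]; omega)
      obtain ⟨v, hv⟩ := exists_pv (k := n + 2 + 1) g (by
        rw [← natDegree_lt_iff_degree_lt h2]; omega)
      refine ⟨⟨Sum.elim u v, ?_⟩, ?_⟩
      · simp only [Sum.elim_inl, Sum.elim_inr]
        rw [hu, hv]
        exact (good_iff_mem (m + 2) (n + 2) (by omega) (by omega) _ _ h3 h4).mpr ⟨hx, hd⟩
      · simp only [Sum.elim_inl, Sum.elim_inr, hu, hv]
  rw [h1]
  have h2 := ncard_dg_le_one (K := K) m n
  have h3 := ncard_AA K (m + 2) (n + 2)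
  have h4 := ncard_AA K m n
  rw [← hq] at h2 h3 h4
  have hp : ∀ k : ℕ, ((q ^ k - 1 : ℕ) : ℝ) = (q : ℝ) ^ k - 1 := by
    intro k
    rw [Nat.cast_sub (Nat.one_le_pow _ _ (by omega))]
    push_cast; ring
  have h2' : (({x ∈ AA K (m + 2) (n + 2) | dg x ≤ 1}.ncard : ℕ) : ℝ) +
    (q : ℝ) ^ 2 * ((AA K m n).ncard : ℝ) = ((AA K (m + 2) (n + 2)).ncard : ℝ) := by
    exact_mod_cast h2
  have h3' : ((AA K (m + 2) (n + 2)).ncard : ℝ) + ((q : ℝ) ^ (m + 2) - 1) * ((q : ℝ) ^ (n + 2) - 1) =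
      ((q : ℝ) ^ (m + 2 + 1) - 1) * ((q : ℝ) ^ (n + 2 + 1) - 1) := by
    rw [← hp, ← hp, ← hp, ← hp]
    exact_mod_cast h3
  have h4' : ((AA K m n).ncard : ℝ) + ((q : ℝ) ^ m - 1) * ((q : ℝ) ^ n - 1) =
      ((q : ℝ) ^ (m + 1) - 1) * ((q : ℝ) ^ (n + 1) - 1) := by
    rw [← hp, ← hp, ← hp, ← hp]
    exact_mod_cast h4
  have hq0 : (q : ℝ) ≠ 0 := by positivity
  have e1 : ((AA K (m + 2) (n + 2)).ncard : ℝ) = ((q : ℝ) ^ (m + 2 + 1) - 1) *
      ((q : ℝ) ^ (n + 2 + 1) - 1) - ((q : ℝ) ^ (m + 2) - 1) * ((q : ℝ) ^ (n + 2) - 1) := by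
    linarith
  have e2 : ((AA K m n).ncard : ℝ) = ((q : ℝ) ^ (m + 1) - 1) * ((q : ℝ) ^ (n + 1) - 1) -
      ((q : ℝ) ^ m - 1) * ((q : ℝ) ^ n - 1) := by
    linarith
  have e3 : (({x ∈ AA K (m + 2) (n + 2) | dg x ≤ 1}.ncard : ℕ) : ℝ) =
      ((AA K (m + 2) (n + 2)).ncard : ℝ) - (q : ℝ) ^ 2 * ((AA K m n).ncard : ℝ) := by
    linarith
  rw [e3, e1, e2]
  field_simp
  ring

end good

end Q279.BZ
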