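import Mathlib

set_option autoImplicit false

namespace Q279.BZ
open Matrix Polynomial

section field
variable {K : Type*} [Field K] {ι : Type*} [Fintype ι] [DecidableEq ι]

lemma updateCol_mulVec' {R : Type*} [CommRing R] (A : Matrix ι ι R) (b v : ι → R) (j : ι) :
    (A.updateCol j b) *ᵥ v = A *ᵥ (Function.update v j 0) + v j • b := by
  ext i
  simp only [mulVec, dotProduct, Pi.add_apply, Pi.smul_apply, smul_eq_mul]
  rw [← Finset.add_sum_erase _ _ (Finset.mem_univ j), ← Finset.add_sum_erase (a := j) Finset.univ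
    (fun x => A i x * Function.update v j 0 x) (Finset.mem_univ j)]
  rw [updateCol_self, Function.update_self, mul_zero, zero_add, add_comm, mul_comm (v j)]
  congr 1
  apply Finset.sum_congr rfl
  intro x hx
  have hx' : x ≠ j := Finset.ne_of_mem_erase hx
  rw [updateCol_ne hx', Function.update_of_ne hx']

lemma cramer_ne_zero_of_span (A : Matrix ι ι K) (b : ι → K) (hb : b ≠ 0)
    (h : ∀ y : ι → K, ∃ x : ι → K, ∃ c : K, A *ᵥ x + c • b = y) : A.cramer b ≠ 0 := by
  by_cases hA : A.det = 0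
  · obtain ⟨u, hu0, hu⟩ := Matrix.exists_mulVec_eq_zero_iff.mpr hA
    obtain ⟨j, hj⟩ : ∃ j, u j ≠ 0 := by
      by_contra hcon
      push Not at hcon
      exact hu0 (funext hcon)
    intro hcr
    have hdet : (A.updateCol j b).det = 0 := by
      rw [← Matrix.cramer_apply, hcr]; rfl
    have hsurj : Function.Surjective (fun v => (A.updateCol j b) *ᵥ v) := by
      intro y
      obtain ⟨x, c, hxc⟩ := h y
      set x' : ι → K := x - (x j / u j) • u with hx'
      have h1 : x' j = 0 := by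
        simp [hx', hj]
      have h2 : A *ᵥ x' = A *ᵥ x := by
        rw [hx', Matrix.mulVec_sub, Matrix.mulVec_smul, hu, smul_zero, sub_zero]
      refine ⟨Function.update x' j c, ?_⟩
      dsimp only
      rw [updateCol_mulVec', Function.update_self, Function.update_idem]
      have h3 : Function.update x' j 0 = x' := by
        rw [← h1]; exact Function.update_eq_self j x'
      rw [h3, h2, hxc]
    obtain ⟨w, hw⟩ := Matrix.exists_vecMul_eq_zero_iff.mpr hdet
    obtain ⟨hw0, hw1⟩ := hw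
    obtain ⟨i, hi⟩ : ∃ i, w i ≠ 0 := by
      by_contra hcon
      push Not at hcon
      exact hw0 (funext hcon)
    obtain ⟨v, hv⟩ := hsurj (Pi.single i 1)
    dsimp only at hv
    have h4 : w ⬝ᵥ ((A.updateCol j b) *ᵥ v) = 0 := by
      rw [Matrix.dotProduct_mulVec, hw1]; simp
    rw [hv] at h4
    simp at h4
    exact hi h4
  · intro hcr
    have h1 := Matrix.mulVec_cramer A b
    rw [hcr, Matrix.mulVec_zero] at h1
    exact hb (by
      have h2 := h1.symm
      rcases smul_eq_zero.mp h2 with h3 | h3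
      · exact absurd h3 hA
      · exact h3)

lemma span_of_cramer_ne_zero (A : Matrix ι ι K) (b : ι → K) (h : A.cramer b ≠ 0) :
    ∀ y : ι → K, ∃ x : ι → K, ∃ c : K, A *ᵥ x + c • b = y := by
  obtain ⟨j, hj⟩ : ∃ j, A.cramer b j ≠ 0 := by
    by_contra hcon
    push Not at hcon
    exact h (funext hcon)
  rw [Matrix.cramer_apply] at hj
  intro y
  have hu : IsUnit (A.updateCol j b).det := isUnit_iff_ne_zero.mpr hj
  refine ⟨Function.update ((A.updateCol j b)⁻¹ *ᵥ y) j 0, ((A.updateCol j b)⁻¹ *ᵥ y) j, ?_⟩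
  rw [← updateCol_mulVec', Matrix.mulVec_mulVec, Matrix.mul_nonsing_inv _ hu, Matrix.one_mulVec]

end field

section int
variable {ι : Type*} [Fintype ι] [DecidableEq ι]

/-- If a prime divides every entry of the Cramer vector, a proper divisor of `det A` works. -/
lemma exists_smaller (A : Matrix ι ι ℤ) (b : ι → ℤ) (i0 : ι) (hb : b i0 = 1)
    (hA : A.det ≠ 0) (p : ℕ) (hp : p.Prime) (hpd : ∀ i, (p : ℤ) ∣ A.cramer b i) :
    ∃ N : ℕ, 0 < N ∧ N < A.det.natAbs ∧ ∃ x, A *ᵥ x = (N : ℤ) • b := by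
  choose v' hv' using hpd
  have h1 := Matrix.mulVec_cramer A b
  have h2 : A.cramer b = (p : ℤ) • v' := by
    ext i; rw [hv' i]; simp
  rw [h2, Matrix.mulVec_smul] at h1
  have h3 : (p : ℤ) * (A *ᵥ v') i0 = A.det := by
    have := congrFun h1 i0
    simpa [hb] using this
  set R1 := (A *ᵥ v') i0 with hR1
  have hp0 : (p : ℤ) ≠ 0 := by exact_mod_cast hp.pos.ne'
  have h4 : A *ᵥ v' = R1 • b := by
    have h5 : (p : ℤ) • (A *ᵥ v') = (p : ℤ) • (R1 • b) := by
      rw [h1, ← h3, smul_smul]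
    exact smul_right_injective _ hp0 h5
  have hR0 : R1 ≠ 0 := by
    intro h; rw [h, mul_zero] at h3; exact hA h3.symm
  refine ⟨R1.natAbs, Int.natAbs_pos.mpr hR0, ?_, ?_⟩
  · rw [← h3, Int.natAbs_mul, Int.natAbs_natCast]
    have : 0 < R1.natAbs := Int.natAbs_pos.mpr hR0
    have := hp.two_le
    nlinarith
  · rcases Int.natAbs_eq R1 with h | h
    · refine ⟨v', ?_⟩
      rw [← h, h4]
    · refine ⟨-v', ?_⟩
      rw [Matrix.mulVec_neg, h4]
      have : ((R1.natAbs : ℕ) : ℤ) = -R1 := by omega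
      rw [this, neg_smul]

lemma det_dvd_of_mem (A : Matrix ι ι ℤ) (b : ι → ℤ) (hA : A.det ≠ 0)
    (hp : ∀ p : ℕ, p.Prime → ∃ i, ¬ (p : ℤ) ∣ A.cramer b i) (N : ℤ) (x : ι → ℤ)
    (hx : A *ᵥ x = N • b) : A.det ∣ N := by
  have h1 : A.adjugate *ᵥ (A *ᵥ x) = A.adjugate *ᵥ (N • b) := by rw [hx]
  rw [Matrix.mulVec_mulVec, Matrix.adjugate_mul, Matrix.smul_mulVec, Matrix.one_mulVec,
    Matrix.mulVec_smul, ← Matrix.cramer_eq_adjugate_mulVec] at h1
  set g := Finset.univ.gcd (A.cramer b) with hg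
  have hg1 : IsUnit g := by
    by_contra hcon
    have hne : g.natAbs ≠ 1 := fun h => hcon (Int.isUnit_iff_natAbs_eq.mpr h)
    obtain ⟨p, hpp, hpd⟩ := Nat.exists_prime_and_dvd hne
    obtain ⟨i, hi⟩ := hp p hpp
    apply hi
    have h2 : (p : ℤ) ∣ g := Int.natCast_dvd.mpr hpd
    exact h2.trans (Finset.gcd_dvd (Finset.mem_univ i))
  have h3 : A.det ∣ Finset.univ.gcd (fun i => N * A.cramer b i) := by
    apply Finset.dvd_gcd
    intro i _
    have := congrFun h1 i
    simp only [Pi.smul_apply, smul_eq_mul] at this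
    exact ⟨x i, this.symm⟩
  rw [Finset.gcd_mul_left] at h3
  have h4 : A.det ∣ normalize N := (IsUnit.dvd_mul_right hg1).mp h3
  exact (dvd_normalize_iff).mp h4

end int

end Q279.BZ
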