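import Pool.Agent.Q279.BZ.Local

set_option autoImplicit false

namespace Q279.BZ
open Matrix Polynomial

/-- `p f + q g = 1` with `deg p < deg g` and `deg q < deg f`. -/
def IsBezoutPair (f g : ℤ[X]) (p q : ℚ[X]) : Prop :=
  p * f.map (Int.castRingHom ℚ) + q * g.map (Int.castRingHom ℚ) = 1 ∧
    p.degree < g.degree ∧ q.degree < f.degree

/-- all coefficients are integers -/
def HasIntCoeffs (p : ℚ[X]) : Prop := ∀ i, ∃ z : ℤ, p.coeff i = z

/-- The least positive `N` such that `N p` and `N q` have integer coefficients. -/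
noncomputable def bezoutB (f g : ℤ[X]) : ℕ :=
  sInf {N : ℕ | 0 < N ∧ ∃ p q : ℚ[X], IsBezoutPair f g p q ∧
    HasIntCoeffs (C (N : ℚ) * p) ∧ HasIntCoeffs (C (N : ℚ) * q)}

/-- `|Res(f,g)|` -/
noncomputable def resR (f g : ℤ[X]) : ℕ := (resultant f g).natAbs

/-- no common root in `ℂ` -/
def NoCommonRoot (f g : ℤ[X]) : Prop := ¬ ∃ z : ℂ, aeval z f = 0 ∧ aeval z g = 0

lemma aeval_eq' (z : ℂ) (f : ℤ[X]) : aeval z f = eval z (f.map (Int.castRingHom ℂ)) := by
  rw [aeval_def, eval_map, algebraMap_int_eq]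

/-- no common complex root iff nonzero resultant -/
lemma noCommonRoot_iff (f g : ℤ[X]) (hf : f ≠ 0) : NoCommonRoot f g ↔ resultant f g ≠ 0 := by
  have hinj : Function.Injective (Int.castRingHom ℂ) := RingHom.injective_int _
  have h1 : resultant (f.map (Int.castRingHom ℂ)) (g.map (Int.castRingHom ℂ)) =
      ((resultant f g : ℤ) : ℂ) := by
    have := resultant_map_map f g f.natDegree g.natDegree (Int.castRingHom ℂ)
    rw [natDegree_map_eq_of_injective hinj, natDegree_map_eq_of_injective hinj]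
    simp [this]
  have h2 : resultant f g ≠ 0 ↔
      resultant (f.map (Int.castRingHom ℂ)) (g.map (Int.castRingHom ℂ)) ≠ 0 := by
    rw [h1]; norm_cast
  have hf' : f.map (Int.castRingHom ℂ) ≠ 0 := (Polynomial.map_ne_zero_iff hinj).mpr hf
  rw [h2, Ne, resultant_eq_zero_iff, not_and, not_not]
  have h3 : (f.map (Int.castRingHom ℂ) ≠ 0 ∨ g.map (Int.castRingHom ℂ) ≠ 0) := Or.inl hf'
  constructor
  · intro h _
    rw [Polynomial.isCoprime_iff_aeval_ne_zero_of_isAlgClosed ℂ ℂ]
    intro z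
    by_contra hcon
    push Not at hcon
    apply h
    refine ⟨z, ?_, ?_⟩
    · rw [aeval_eq', ← coe_aeval_eq_eval]; exact hcon.1
    · rw [aeval_eq', ← coe_aeval_eq_eval]; exact hcon.2
  · intro h
    rintro ⟨z, hz1, hz2⟩
    obtain ⟨a, b, hab⟩ := h h3
    have h4 := congrArg (eval z) hab
    rw [eval_add, eval_mul, eval_mul, eval_one] at h4
    have h5 : eval z (f.map (Int.castRingHom ℂ)) = 0 := by
      rw [← aeval_eq']; exact hz1
    have h6 : eval z (g.map (Int.castRingHom ℂ)) = 0 := by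
      rw [← aeval_eq']; exact hz2
    rw [h5, h6] at h4
    simp at h4

end Q279.BZ
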