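import Pool.Agent.Q279.BZ.Limit
import Pool.Agent.Q279.BZ.BR

set_option autoImplicit false

namespace Q279.BZ
open Polynomial Filter Topology

/-- integer polynomials of exact degree `k` with positive leading coefficient and all
coefficients in `[-H, H]` -/
def PolyBox (k H : ℕ) : Set ℤ[X] :=
  {f | f.natDegree = k ∧ 0 < f.leadingCoeff ∧ ∀ i, -(H : ℤ) ≤ f.coeff i ∧ f.coeff i ≤ (H : ℤ)}

/-- the coprime pairs -/
def PairS (m n H : ℕ) : Set (ℤ[X] × ℤ[X]) :=
  {x | x.1 ∈ PolyBox m H ∧ x.2 ∈ PolyBox n H ∧ NoCommonRoot x.1 x.2}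

/-- the coprime pairs with `B = R` -/
def PairE (m n H : ℕ) : Set (ℤ[X] × ℤ[X]) :=
  {x | x ∈ PairS m n H ∧ bezoutB x.1 x.2 = resR x.1 x.2}

/-- the proportion -/
noncomputable def rho (m n H : ℕ) : ℝ := ((PairE m n H).ncard : ℝ) / ((PairS m n H).ncard : ℝ)

lemma pv_mem_iff {k H : ℕ} (v : Fin (k + 1) → ℤ) :
    pv v ∈ PolyBox k H ↔ ∀ i, v i ∈ iv (decide (i = Fin.last k)) H := by
  have hck : (pv v).coeff k = v (Fin.last k) := by
    rw [coeff_pv, dif_pos (Nat.lt_succ_self k)]; rfl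
  constructor
  · rintro ⟨h1, h2, h3⟩ i
    have h4 := h3 i
    rw [coeff_pv, dif_pos i.2] at h4
    change -(H : ℤ) ≤ v i ∧ v i ≤ (H : ℤ) at h4
    unfold iv
    by_cases hi : i = Fin.last k
    · rw [if_pos (by simpa using hi), Finset.mem_Ico]
      rw [leadingCoeff, h1, hck] at h2
      rw [hi] at h4 ⊢
      omega
    · rw [if_neg (by simpa using hi), Finset.mem_Ico]
      omega
  · intro h
    have hlast : v (Fin.last k) ∈ iv true H := by simpa using h (Fin.last k)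
    unfold iv at hlast
    rw [if_pos rfl, Finset.mem_Ico] at hlast
    have hnd : (pv v).natDegree = k := by
      apply le_antisymm (natDegree_pv_le v)
      apply le_natDegree_of_ne_zero
      rw [hck]; omega
    refine ⟨hnd, ?_, ?_⟩
    · rw [leadingCoeff, hnd, hck]; omega
    · intro j
      rw [coeff_pv]
      split_ifs with hj
      · have h5 := h ⟨j, hj⟩
        unfold iv at h5
        split_ifs at h5
        · rw [Finset.mem_Ico] at h5; omega
        · rw [Finset.mem_Ico] at h5; omega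
      · omega

lemma box_mem_iff {m n H : ℕ} (w : Fin (m + 1) ⊕ Fin (n + 1) → ℤ) :
    w ∈ Box (sg m n) H ↔ ff w ∈ PolyBox m H ∧ gg w ∈ PolyBox n H := by
  rw [ff, gg, pv_mem_iff, pv_mem_iff, Box, Fintype.mem_piFinset]
  constructor
  · intro h
    exact ⟨fun i => h (Sum.inl i), fun i => h (Sum.inr i)⟩
  · rintro ⟨h1, h2⟩ (i | i)
    · exact h1 i
    · exact h2 i

lemma pair_injective {m n : ℕ} : Function.Injective
    (fun w : Fin (m + 1) ⊕ Fin (n + 1) → ℤ => (ff w, gg w)) := by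
  intro w w' h
  simp only [Prod.mk.injEq] at h
  have h1 := pv_injective h.1
  have h2 := pv_injective h.2
  ext i
  rcases i with i | i
  · exact congrFun h1 i
  · exact congrFun h2 i

lemma exists_pair {m n H : ℕ} {x : ℤ[X] × ℤ[X]} (h1 : x.1 ∈ PolyBox m H) (h2 : x.2 ∈ PolyBox n H) :
    ∃ w : Fin (m + 1) ⊕ Fin (n + 1) → ℤ, (ff w, gg w) = x := by
  obtain ⟨u, hu⟩ := exists_pv (k := m + 1) x.1 (by
    have := h1.1
    exact lt_of_le_of_lt degree_le_natDegree (by rw [this]; exact_mod_cast Nat.lt_succ_self m))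
  obtain ⟨v, hv⟩ := exists_pv (k := n + 1) x.2 (by
    have := h2.1
    exact lt_of_le_of_lt degree_le_natDegree (by rw [this]; exact_mod_cast Nat.lt_succ_self n))
  refine ⟨Sum.elim u v, ?_⟩
  ext1
  · exact hu
  · exact hv

lemma ncr_iff {m n H : ℕ} {w : Fin (m + 1) ⊕ Fin (n + 1) → ℤ} (hw : w ∈ Box (sg m n) H) :
    NoCommonRoot (ff w) (gg w) ↔ RR w ≠ 0 := by
  rw [box_mem_iff] at hw
  have h1 : ff w ≠ 0 := by
    intro h
    have := hw.1.2.1
    rw [h] at this; simp at this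
  rw [noCommonRoot_iff _ _ h1, hw.1.1, hw.2.1, RR]

open Classical in
lemma ncard_S (m n H : ℕ) : (PairS m n H).ncard =
    ((Box (sg m n) H).filter (fun w : Fin (m + 1) ⊕ Fin (n + 1) → ℤ => RR w ≠ 0)).card := by
  have h : PairS m n H = (fun w : Fin (m + 1) ⊕ Fin (n + 1) → ℤ => (ff w, gg w)) ''
      (((Box (sg m n) H).filter (fun w : Fin (m + 1) ⊕ Fin (n + 1) → ℤ => RR w ≠ 0) :
        Finset _) : Set _) := by
    ext x
    constructor
    · rintro ⟨h1, h2, h3⟩
      obtain ⟨w, rfl⟩ := exists_pair h1 h2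
      have hw : w ∈ Box (sg m n) H := (box_mem_iff w).mpr ⟨h1, h2⟩
      refine ⟨w, ?_, rfl⟩
      rw [Finset.mem_coe, Finset.mem_filter]
      exact ⟨hw, (ncr_iff hw).mp h3⟩
    · rintro ⟨w, hw, rfl⟩
      rw [Finset.mem_coe, Finset.mem_filter] at hw
      have h1 := (box_mem_iff w).mp hw.1
      exact ⟨h1.1, h1.2, (ncr_iff hw.1).mpr hw.2⟩
  rw [h, Set.InjOn.ncard_image (pair_injective.injOn), Set.ncard_coe_finset]

lemma BR_iff {m n H : ℕ} (hm : 1 ≤ m) (hn : 1 ≤ n) {w : Fin (m + 1) ⊕ Fin (n + 1) → ℤ}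
    (hw : w ∈ Box (sg m n) H) (hR : RR w ≠ 0) :
    bezoutB (ff w) (gg w) = resR (ff w) (gg w) ↔
      ∀ p : ℕ, p.Prime → GG m n p (fun i => (w i : ZMod p)) := by
  rw [box_mem_iff] at hw
  have h1 := hw.1.1
  have h2 := hw.2.1
  have hres : resultant (ff w) (gg w) ≠ 0 := by
    rw [h1, h2]; exact hR
  rw [B_eq_R_iff _ _ (by rw [h1]; exact hm) (by rw [h2]; exact hn) hres, h1, h2]
  constructor
  · intro h p hp hf
    have := h p
    rw [ff_map, gg_map] at this
    exact this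
  · intro h p hf
    have := h p hf.out hf
    rw [ff_map, gg_map]
    exact this

open Classical in
lemma ncard_E (m n H : ℕ) (hm : 1 ≤ m) (hn : 1 ≤ n) : (PairE m n H).ncard =
    ((Box (sg m n) H).filter (fun w : Fin (m + 1) ⊕ Fin (n + 1) → ℤ =>
      RR w ≠ 0 ∧ ∀ p : ℕ, p.Prime → GG m n p (fun i => (w i : ZMod p)))).card := by
  have h : PairE m n H = (fun w : Fin (m + 1) ⊕ Fin (n + 1) → ℤ => (ff w, gg w)) ''
      (((Box (sg m n) H).filter (fun w : Fin (m + 1) ⊕ Fin (n + 1) → ℤ =>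
      RR w ≠ 0 ∧ ∀ p : ℕ, p.Prime → GG m n p (fun i => (w i : ZMod p))) :
        Finset _) : Set _) := by
    ext x
    constructor
    · rintro ⟨⟨h1, h2, h3⟩, h4⟩
      obtain ⟨w, rfl⟩ := exists_pair h1 h2
      have hw : w ∈ Box (sg m n) H := (box_mem_iff w).mpr ⟨h1, h2⟩
      refine ⟨w, ?_, rfl⟩
      rw [Finset.mem_coe, Finset.mem_filter]
      have hR := (ncr_iff hw).mp h3
      exact ⟨hw, hR, (BR_iff hm hn hw hR).mp h4⟩
    · rintro ⟨w, hw, rfl⟩
      rw [Finset.mem_coe, Finset.mem_filter] at hw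
      have h1 := (box_mem_iff w).mp hw.1
      exact ⟨⟨h1.1, h1.2, (ncr_iff hw.1).mpr hw.2.1⟩, (BR_iff hm hn hw.1 hw.2.1).mpr hw.2.2⟩
  rw [h, Set.InjOn.ncard_image (pair_injective.injOn), Set.ncard_coe_finset]

theorem rho_tendsto (m n : ℕ) (hm : 2 ≤ m) (hn : 2 ≤ n) :
    Tendsto (fun H : ℕ => rho m n H) atTop (𝓝 (36 / Real.pi ^ 4)) := by
  have h1 := density_E hm hn
  have h2 := density_S (m := m) (n := n)
  have h3 := h1.div h2 one_ne_zero
  rw [div_one] at h3
  refine h3.congr' ?_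
  filter_upwards [eventually_ge_atTop 1] with H hH
  have hBpos : (0 : ℝ) < ((Box (sg m n) H).card : ℝ) := by exact_mod_cast card_Box_pos _ _ hH
  rw [Pi.div_apply, rho, ncard_E m n H (by omega) (by omega), ncard_S]
  rw [div_div_div_cancel_right₀ hBpos.ne']

theorem const_lt : 36 / Real.pi ^ 4 < 1 / 2 := by
  have h := Real.pi_gt_three
  have h1 : (3 : ℝ) ^ 4 < Real.pi ^ 4 := pow_lt_pow_left₀ h (by norm_num) (by norm_num)
  rw [div_lt_div_iff₀ (by positivity) (by norm_num)]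
  linarith

end Q279.BZ
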