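import Pool.Agent.Q279.BZ.Large

set_option autoImplicit false

namespace Q279.BZ
open Polynomial

section sz
variable {ι : Type*} [Fintype ι] [DecidableEq ι]

/-- zero set of a nonzero polynomial in a box -/
theorem zero_count (s : ι → Bool) (P : MvPolynomial ι ℤ) (hP : P ≠ 0) :
    ∃ C : ℝ, 0 ≤ C ∧ ∀ H : ℕ, 1 ≤ H →
      (((Box s H).filter (fun w : ι → ℤ => MvPolynomial.eval w P = 0)).card : ℝ) ≤
        C / H * ((Box s H).card : ℝ) := by
  classical
  set N := Fintype.card ι
  let e : ι ≃ Fin N := Fintype.equivFin ι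
  set p : MvPolynomial (Fin N) ℤ := MvPolynomial.rename e P with hp
  have hp0 : p ≠ 0 := by
    intro h
    apply hP
    apply MvPolynomial.rename_injective e e.injective
    rw [← hp, h, map_zero]
  refine ⟨∑ i, (p.degreeOf i : ℝ), Finset.sum_nonneg (fun i _ => Nat.cast_nonneg _), ?_⟩
  intro H hH
  set S : Fin N → Finset ℤ := fun i => iv (s (e.symm i)) H with hS
  have hsz := MvPolynomial.schwartz_zippel_sum_degreeOf hp0 S
  have hcard : ((Box s H).filter (fun w : ι → ℤ => MvPolynomial.eval w P = 0)).card =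
      ((Fintype.piFinset S).filter (fun x => MvPolynomial.eval x p = 0)).card := by
    apply Finset.card_nbij' (i := fun w j => w (e.symm j)) (j := fun x i => x (e i))
    · intro w hw
      simp only [Finset.coe_filter, Box, Fintype.mem_piFinset, Set.mem_ofPred_eq] at hw ⊢
      refine ⟨fun j => hw.1 _, ?_⟩
      rw [hp, MvPolynomial.eval_rename]
      have h9 : (fun j => w (e.symm j)) ∘ e = w := by ext i; simp
      rw [h9]; exact hw.2
    · intro x hx
      simp only [Finset.coe_filter, Box, Fintype.mem_piFinset, Set.mem_ofPred_eq] at hx ⊢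
      refine ⟨fun i => by have := hx.1 (e i); simpa [hS] using this, ?_⟩
      have := hx.2
      rw [hp, MvPolynomial.eval_rename] at this
      exact this
    · intro w _; ext i; simp
    · intro x _; ext i; simp
  have hprod : (Box s H).card = ∏ i, (S i).card := by
    rw [card_Box]
    exact (Equiv.prod_comp e.symm (fun i => (iv (s i) H).card)).symm
  rw [hcard, hprod]
  have hSpos : ∀ i, 0 < (S i).card := fun i => by
    have := le_card_iv (s (e.symm i)) H
    simp only [hS]; omega
  have hprodpos : (0 : ℝ) < ((∏ i, (S i).card : ℕ) : ℝ) := by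
    exact_mod_cast Finset.prod_pos (fun i _ => hSpos i)
  have hsz' : ((((Fintype.piFinset S).filter (fun x => MvPolynomial.eval x p = 0)).card : ℕ) : ℝ) /
      ((∏ i, (S i).card : ℕ) : ℝ) ≤ ∑ i, ((p.degreeOf i : ℝ) / ((S i).card : ℝ)) := by
    have h := (NNRat.cast_mono (K := ℝ)) hsz
    push_cast at h ⊢
    exact h
  rw [div_le_iff₀ hprodpos] at hsz'
  refine hsz'.trans ?_
  apply mul_le_mul_of_nonneg_right _ hprodpos.le
  rw [Finset.sum_div]
  apply Finset.sum_le_sum
  intro i _
  apply div_le_div_of_nonneg_left (Nat.cast_nonneg _) (by exact_mod_cast hH)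
  exact_mod_cast le_card_iv (s (e.symm i)) H

/-- polynomial size bound -/
theorem eval_bound (P : MvPolynomial ι ℤ) : ∃ (C K : ℕ), ∀ (H : ℕ), 1 ≤ H → ∀ w : ι → ℤ,
    (∀ i, |w i| ≤ H) → |MvPolynomial.eval w P| ≤ (C : ℤ) * (H : ℤ) ^ K := by
  induction P using MvPolynomial.induction_on with
  | C a =>
    refine ⟨a.natAbs, 0, fun H _ w _ => ?_⟩
    simp
  | add p q hp hq =>
    obtain ⟨C1, K1, h1⟩ := hp
    obtain ⟨C2, K2, h2⟩ := hq
    refine ⟨C1 + C2, K1 + K2, fun H hH w hw => ?_⟩
    have hH' : (1 : ℤ) ≤ H := by exact_mod_cast hH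
    rw [map_add]
    refine (abs_add_le _ _).trans ?_
    have e1 := h1 H hH w hw
    have e2 := h2 H hH w hw
    have e3 : (C1 : ℤ) * (H : ℤ) ^ K1 ≤ (C1 : ℤ) * (H : ℤ) ^ (K1 + K2) := by
      apply mul_le_mul_of_nonneg_left _ (by positivity)
      exact pow_le_pow_right₀ hH' (by omega)
    have e4 : (C2 : ℤ) * (H : ℤ) ^ K2 ≤ (C2 : ℤ) * (H : ℤ) ^ (K1 + K2) := by
      apply mul_le_mul_of_nonneg_left _ (by positivity)
      exact pow_le_pow_right₀ hH' (by omega)
    push_cast
    linarith
  | mul_X p i hp =>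
    obtain ⟨C, K, h⟩ := hp
    refine ⟨C, K + 1, fun H hH w hw => ?_⟩
    rw [map_mul, abs_mul, MvPolynomial.eval_X, pow_succ, ← mul_assoc]
    apply mul_le_mul (h H hH w hw) (hw i) (abs_nonneg _) (by positivity)

end sz

lemma natDegree_prod_X_sub_C' {R : Type*} [CommRing R] [Nontrivial R] (n : ℕ) (a : ℕ → R) :
    (∏ j ∈ Finset.range n, (X - C (a j))).natDegree = n := by
  rw [natDegree_prod_of_monic _ _ (fun j _ => monic_X_sub_C _)]
  simp only [natDegree_X_sub_C, Finset.sum_const, Finset.card_range, smul_eq_mul, mul_one]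

section generic
variable (m n : ℕ)

/-- generic vector -/
noncomputable def gv : Fin (m + 1) ⊕ Fin (n + 1) → MvPolynomial (Fin (m + 1) ⊕ Fin (n + 1)) ℤ :=
  fun i => MvPolynomial.X i

variable {m n}

lemma eval_DD (w : Fin (m + 1) ⊕ Fin (n + 1) → ℤ) :
    MvPolynomial.eval w (DD (gv m n)) = DD w := by
  rw [DD_map]
  congr 1
  ext i
  simp [gv]

lemma exists_special (hm : 1 ≤ m) (hn : 1 ≤ n) : ∃ w : Fin (m + 1) ⊕ Fin (n + 1) → ℤ, DD w ≠ 0 := by
  -- f = x, g = ∏ (x - j)
  set g : ℤ[X] := ∏ j ∈ Finset.range n, (X - C (j : ℤ)) with hg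
  have hgm : g.Monic := monic_prod_of_monic _ _ (fun j _ => monic_X_sub_C _)
  have hgd : g.natDegree = n := natDegree_prod_X_sub_C' n _
  obtain ⟨v, hv⟩ := exists_pv (k := n + 1) g (by
    rw [← natDegree_lt_iff_degree_lt hgm.ne_zero, hgd]; omega)
  refine ⟨Sum.elim (fun i => if (i : ℕ) = 1 then 1 else 0) v, ?_⟩
  set w : Fin (m + 1) ⊕ Fin (n + 1) → ℤ := Sum.elim (fun i => if (i : ℕ) = 1 then 1 else 0) v with hw
  set w' : Fin (m + 1) ⊕ Fin (n + 1) → ℚ := fun i => (Int.castRingHom ℚ) (w i) with hw'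
  intro h0
  have h1 : DD w' = 0 := by rw [hw', ← DD_map, h0, map_zero]
  have hgg : gg w' = ∏ j ∈ Finset.range n, (X - C (j : ℚ)) := by
    have : (gg w).map (Int.castRingHom ℚ) = gg w' := gg_map _ _
    rw [← this]
    have h2 : gg w = g := by
      rw [← hv]; rfl
    rw [h2, hg, Polynomial.map_prod]
    apply Finset.prod_congr rfl
    intro j _
    simp
  have hft : ft w' = X := by
    ext j
    rw [ft, coeff_pv, coeff_X]
    by_cases hj : j < m + 1
    · rw [dif_pos hj]
      by_cases hj1 : j = 1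
      · subst hj1
        have : (⟨1, hj⟩ : Fin (m + 1)) ≠ 0 := by
          intro h; have := congrArg Fin.val h; simp at this
        rw [if_neg this]
        simp [hw', hw]
      · rw [if_neg (fun h : 1 = j => hj1 h.symm)]
        split_ifs
        · rfl
        · simp [hw', hw, hj1]
    · rw [dif_neg hj, if_neg (by omega)]
  have hroots : (gg w').roots = (Multiset.range n).map (fun j : ℕ => (j : ℚ)) := by
    rw [hgg]
    rw [Finset.prod_eq_multiset_prod]
    have : (Finset.range n).val.map (fun j : ℕ => (X - C (j : ℚ) : ℚ[X])) =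
        ((Multiset.range n).map (fun j : ℕ => (j : ℚ))).map (fun a => X - C a) := by
      rw [Multiset.map_map]; rfl
    rw [this, roots_multiset_prod_X_sub_C]
  have hmon : (gg w').Monic := by
    rw [hgg]; exact monic_prod_of_monic _ _ (fun j _ => monic_X_sub_C _)
  have hdeg : (gg w').natDegree = n := by
    rw [hgg]; exact natDegree_prod_X_sub_C' n _
  have hsp : (gg w').Splits := by
    rw [splits_iff_card_roots, hroots, hdeg]; simp
  have hF := FT_prod w' hsp hdeg
  rw [hmon.leadingCoeff, one_pow, C_1, one_mul, hroots, Multiset.map_map, hft] at hF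
  have hF2 : FT w' = ∏ j ∈ Finset.range n, (X - C (-(j : ℚ))) := by
    rw [hF, Finset.prod_eq_multiset_prod]
    congr 1
    apply Multiset.map_congr rfl
    intro j _
    simp
  have hsep : (FT w').Separable := by
    rw [hF2, separable_prod_X_sub_C_iff']
    intro x _ y _ hxy
    have : (x : ℚ) = y := by linarith
    exact_mod_cast this
  have hdF : (FT w').natDegree = n := by
    rw [hF2]; exact natDegree_prod_X_sub_C' n _
  have hdF' : (derivative (FT w')).natDegree = n - 1 := by
    have := degree_derivative_eq (FT w') (by rw [hdF]; omega)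
    rw [hdF] at this
    exact natDegree_eq_of_degree_eq_some this
  have h5 := resultant_ne_zero (FT w') (derivative (FT w')) hsep
  rw [hdF, hdF'] at h5
  exact h5 h1

lemma DD_gv_ne_zero (hm : 1 ≤ m) (hn : 1 ≤ n) : DD (gv m n) ≠ 0 := by
  obtain ⟨w, hw⟩ := exists_special hm hn
  intro h
  apply hw
  rw [← eval_DD, h, map_zero]

/-- generic resultant -/
noncomputable def RR (w : Fin (m + 1) ⊕ Fin (n + 1) → ℤ) : ℤ := resultant (ff w) (gg w) m n

lemma eval_RR (w : Fin (m + 1) ⊕ Fin (n + 1) → ℤ) :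
    MvPolynomial.eval w (resultant (ff (gv m n)) (gg (gv m n)) m n) = RR w := by
  rw [← resultant_map_map, ff_map, gg_map, RR]
  congr 1
  · congr 1; ext i; simp [gv]
  · congr 1; ext i; simp [gv]

lemma RR_gv_ne_zero : resultant (ff (gv m n)) (gg (gv m n)) m n ≠ 0 := by
  intro h
  obtain ⟨v, hv⟩ := exists_pv (k := m + 1) ((X : ℤ[X]) ^ m) (by
    rw [degree_X_pow]; exact_mod_cast Nat.lt_succ_self m)
  obtain ⟨u, hu⟩ := exists_pv (k := n + 1) (1 : ℤ[X]) (by
    rw [degree_one]; exact_mod_cast Nat.succ_pos n)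
  set w : Fin (m + 1) ⊕ Fin (n + 1) → ℤ := Sum.elim v u with hw
  have h1 : ff w = X ^ m := by rw [← hv]; rfl
  have h2 : gg w = 1 := by rw [← hu]; rfl
  have h3 := eval_RR w
  rw [h, map_zero, RR, h1, h2, resultant_one_right] at h3
  simp at h3

end generic

end Q279.BZ
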