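import Pool.Agent.Q279.BZ.Box

set_option autoImplicit false

namespace Q279.BZ
open Polynomial

section defs
variable {R : Type*} [CommRing R] {m n : ℕ}

noncomputable def ff (w : Fin (m + 1) ⊕ Fin (n + 1) → R) : R[X] := pv (fun i => w (Sum.inl i))
noncomputable def gg (w : Fin (m + 1) ⊕ Fin (n + 1) → R) : R[X] := pv (fun i => w (Sum.inr i))
/-- first polynomial without its constant term -/
noncomputable def ft (w : Fin (m + 1) ⊕ Fin (n + 1) → R) : R[X] :=
  pv (fun i : Fin (m + 1) => if i = 0 then 0 else w (Sum.inl i))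

lemma ff_eq (w : Fin (m + 1) ⊕ Fin (n + 1) → R) : ff w = ft w + C (w (Sum.inl 0)) := by
  ext j
  rw [ff, ft, coeff_add, coeff_pv, coeff_pv, coeff_C]
  by_cases hj : j = 0
  · subst hj; simp
  · by_cases h : j < m + 1
    · have : (⟨j, h⟩ : Fin (m + 1)) ≠ 0 := by
        intro h2; exact hj (by simpa using congrArg Fin.val h2)
      simp [h, this, hj]
    · simp [h, hj]

/-- resultant with a variable constant term -/
noncomputable def FT (w : Fin (m + 1) ⊕ Fin (n + 1) → R) : R[X] :=
  resultant ((gg w).map (C : R →+* R[X])) ((ft w).map (C : R →+* R[X]) + C X) n m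

/-- its discriminant -/
noncomputable def DD (w : Fin (m + 1) ⊕ Fin (n + 1) → R) : R :=
  resultant (FT w) (derivative (FT w)) n (n - 1)

variable {S : Type*} [CommRing S]

lemma ff_map (φ : R →+* S) (w : Fin (m + 1) ⊕ Fin (n + 1) → R) :
    (ff w).map φ = ff (fun i => φ (w i)) := map_pv φ _

lemma gg_map (φ : R →+* S) (w : Fin (m + 1) ⊕ Fin (n + 1) → R) :
    (gg w).map φ = gg (fun i => φ (w i)) := map_pv φ _

lemma ft_map (φ : R →+* S) (w : Fin (m + 1) ⊕ Fin (n + 1) → R) :
    (ft w).map φ = ft (fun i => φ (w i)) := by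
  rw [ft, map_pv, ft]
  congr 1
  ext i
  split_ifs <;> simp

lemma FT_map (φ : R →+* S) (w : Fin (m + 1) ⊕ Fin (n + 1) → R) :
    (FT w).map φ = FT (fun i => φ (w i)) := by
  have h1 : (mapRingHom φ).comp (C : R →+* R[X]) = (C : S →+* S[X]).comp φ := by
    ext; simp
  rw [FT, ← coe_mapRingHom, ← resultant_map_map, Polynomial.map_add, map_C, Polynomial.map_map,
    Polynomial.map_map, h1, ← Polynomial.map_map, ← Polynomial.map_map, gg_map, ft_map,
    coe_mapRingHom, Polynomial.map_X, FT]

lemma DD_map (φ : R →+* S) (w : Fin (m + 1) ⊕ Fin (n + 1) → R) :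
    φ (DD w) = DD (fun i => φ (w i)) := by
  rw [DD, ← resultant_map_map, FT_map, ← derivative_map, FT_map, DD]

end defs

section field
variable {K : Type*} [Field K] {m n : ℕ}

lemma natDegree_ft (w : Fin (m + 1) ⊕ Fin (n + 1) → K) : (ft w).natDegree ≤ m := natDegree_pv_le _
lemma natDegree_ff (w : Fin (m + 1) ⊕ Fin (n + 1) → K) : (ff w).natDegree ≤ m := natDegree_pv_le _
lemma natDegree_gg (w : Fin (m + 1) ⊕ Fin (n + 1) → K) : (gg w).natDegree ≤ n := natDegree_pv_le _

lemma FT_prod (w : Fin (m + 1) ⊕ Fin (n + 1) → K) (hs : (gg w).Splits)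
    (hd : (gg w).natDegree = n) :
    FT w = C ((gg w).leadingCoeff ^ m) *
      ((gg w).roots.map (fun β => X + C ((ft w).eval β))).prod := by
  have hinj : Function.Injective (C : K →+* K[X]) := C_injective
  have h1 : ((gg w).map (C : K →+* K[X])).natDegree = n := by
    rw [natDegree_map_eq_of_injective hinj, hd]
  have h2 : ((ft w).map (C : K →+* K[X]) + C X).natDegree ≤ m := by
    refine (natDegree_add_le _ _).trans (max_le ?_ (by rw [natDegree_C]; omega))
    exact natDegree_map_le.trans (natDegree_ft w)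
  have h3 := resultant_eq_prod_eval ((gg w).map (C : K →+* K[X]))
    ((ft w).map (C : K →+* K[X]) + C X) m h2 (hs.map _)
  rw [h1] at h3
  rw [FT, h3, leadingCoeff_map_of_injective hinj]
  have h4 : ((gg w).map (C : K →+* K[X])).roots = (gg w).roots.map C := by
    rw [← roots_map_of_injective_of_card_eq_natDegree hinj]
    exact hs.natDegree_eq_card_roots.symm
  rw [h4, Multiset.map_map]
  congr 1
  · simp
  · congr 1
    apply Multiset.map_congr rfl
    intro β _
    simp [eval_add, add_comm]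

lemma FT_natDegree (w : Fin (m + 1) ⊕ Fin (n + 1) → K) (hd : w (Sum.inr (Fin.last n)) ≠ 0) :
    (FT w).natDegree = n ∧ FT w ≠ 0 := by
  set L := AlgebraicClosure K
  set φ := algebraMap K L
  have hinj : Function.Injective φ := φ.injective
  set w' : Fin (m + 1) ⊕ Fin (n + 1) → L := fun i => φ (w i) with hw'
  have hc : (gg w').coeff n = w' (Sum.inr (Fin.last n)) := by
    rw [gg, coeff_pv, dif_pos (Nat.lt_succ_self n)]; rfl
  have hc0 : w' (Sum.inr (Fin.last n)) ≠ 0 := by
    rw [hw']; exact (map_ne_zero_iff φ hinj).mpr hd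
  have hdeg : (gg w').natDegree = n :=
    le_antisymm (natDegree_gg w') (le_natDegree_of_ne_zero (by rw [hc]; exact hc0))
  have hg0 : gg w' ≠ 0 := by
    intro h; rw [h] at hc; simp at hc; exact hc0 hc.symm
  have hs : (gg w').Splits := IsAlgClosed.splits _
  have h1 := FT_prod w' hs hdeg
  have h2 : (FT w').natDegree = n := by
    rw [h1, natDegree_C_mul (pow_ne_zero _ (leadingCoeff_ne_zero.mpr hg0)),
      natDegree_multiset_prod_of_monic]
    · rw [Multiset.map_map]
      simp only [Function.comp_def, natDegree_X_add_C, Multiset.map_const', Multiset.sum_replicate,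
        smul_eq_mul, mul_one]
      rw [← hs.natDegree_eq_card_roots, hdeg]
    · intro f hf
      rw [Multiset.mem_map] at hf
      obtain ⟨β, _, rfl⟩ := hf
      exact monic_X_add_C _
  have h3 : FT w' ≠ 0 := by
    rw [h1]
    apply mul_ne_zero
    · rw [Ne, C_eq_zero]; exact pow_ne_zero _ (leadingCoeff_ne_zero.mpr hg0)
    · apply Monic.ne_zero
      apply monic_multiset_prod_of_monic
      intro β _
      exact monic_X_add_C _
  have h4 : (FT w).map φ = FT w' := FT_map φ w
  constructor
  · rw [← natDegree_map_eq_of_injective hinj (FT w), h4, h2]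
  · intro h
    rw [h, Polynomial.map_zero] at h4
    exact h3 h4.symm

/-- If `f, g` have a common factor of degree `≥ 2`, then the constant term is a double root. -/
lemma double_root (w : Fin (m + 1) ⊕ Fin (n + 1) → K) (hd : w (Sum.inr (Fin.last n)) ≠ 0)
    (h : K[X]) (hh : 2 ≤ h.natDegree) (h1 : h ∣ ff w) (h2 : h ∣ gg w) :
    (FT w).eval (w (Sum.inl 0)) = 0 ∧ (derivative (FT w)).eval (w (Sum.inl 0)) = 0 := by
  set L := AlgebraicClosure K
  set φ := algebraMap K L
  have hinj : Function.Injective φ := φ.injective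
  set w' : Fin (m + 1) ⊕ Fin (n + 1) → L := fun i => φ (w i) with hw'
  have hc : (gg w').coeff n = w' (Sum.inr (Fin.last n)) := by
    rw [gg, coeff_pv, dif_pos (Nat.lt_succ_self n)]; rfl
  have hc0 : w' (Sum.inr (Fin.last n)) ≠ 0 := by
    rw [hw']; exact (map_ne_zero_iff φ hinj).mpr hd
  have hdeg : (gg w').natDegree = n :=
    le_antisymm (natDegree_gg w') (le_natDegree_of_ne_zero (by rw [hc]; exact hc0))
  have hg0 : gg w' ≠ 0 := by
    intro h; rw [h] at hc; simp at hc; exact hc0 hc.symm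
  have hs : (gg w').Splits := IsAlgClosed.splits _
  have h3 := FT_prod w' hs hdeg
  have h4 : (FT w).map φ = FT w' := FT_map φ w
  -- roots of h
  set h' := h.map φ with hh'
  have h5 : h' ∣ gg w' := by
    have := Polynomial.map_dvd φ h2
    rwa [gg_map] at this
  have h6 : h' ∣ ff w' := by
    have := Polynomial.map_dvd φ h1
    rwa [ff_map] at this
  have h7 : h'.roots ≤ (gg w').roots := roots.le_of_dvd hg0 h5
  have h8 : 2 ≤ Multiset.card h'.roots := by
    have hsp : h'.Splits := IsAlgClosed.splits _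
    rw [← hsp.natDegree_eq_card_roots, hh', natDegree_map_eq_of_injective hinj]
    exact hh
  have hh'0 : h' ≠ 0 := by
    intro h9; rw [h9] at h8; simp at h8
  obtain ⟨γ1, t1, ht1⟩ : ∃ γ1 t1, h'.roots = γ1 ::ₘ t1 := by
    obtain ⟨a, ha⟩ := Multiset.card_pos_iff_exists_mem.mp (by omega : 0 < Multiset.card h'.roots)
    obtain ⟨t, ht⟩ := Multiset.exists_cons_of_mem ha
    exact ⟨a, t, ht⟩
  obtain ⟨γ2, t2, ht2⟩ : ∃ γ2 t2, t1 = γ2 ::ₘ t2 := by
    rw [ht1, Multiset.card_cons] at h8
    obtain ⟨a, ha⟩ := Multiset.card_pos_iff_exists_mem.mp (by omega : 0 < Multiset.card t1)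
    obtain ⟨t, ht⟩ := Multiset.exists_cons_of_mem ha
    exact ⟨a, t, ht⟩
  obtain ⟨t3, ht3⟩ := Multiset.le_iff_exists_add.mp h7
  rw [ht1, ht2] at ht3
  have hroot : ∀ γ ∈ h'.roots, (ft w').eval γ = - w' (Sum.inl 0) := by
    intro γ hγ
    have h9 : (ff w').eval γ = 0 := by
      obtain ⟨u, hu⟩ := h6
      rw [hu, eval_mul, (mem_roots hh'0).mp hγ, zero_mul]
    rw [ff_eq, eval_add, eval_C] at h9
    exact eq_neg_of_add_eq_zero_left h9
  have e1 := hroot γ1 (by rw [ht1]; exact Multiset.mem_cons_self _ _)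
  have e2 := hroot γ2 (by rw [ht1, ht2]; exact Multiset.mem_cons_of_mem (Multiset.mem_cons_self _ _))
  obtain ⟨Q, hQ⟩ : ∃ Q : L[X], FT w' = (X - C (w' (Sum.inl 0))) ^ 2 * Q := by
    refine ⟨C ((gg w').leadingCoeff ^ m) *
      ((t2 + t3).map (fun β => X + C ((ft w').eval β))).prod, ?_⟩
    rw [h3, ht3]
    simp only [Multiset.cons_add, Multiset.map_cons, Multiset.prod_cons, e1, e2, map_neg,
      ← sub_eq_add_neg]
    ring
  have e3 : (FT w').eval (w' (Sum.inl 0)) = 0 := by
    rw [hQ, eval_mul, eval_pow, eval_sub, eval_X, eval_C, sub_self]; ring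
  have e4 : (derivative (FT w')).eval (w' (Sum.inl 0)) = 0 := by
    rw [hQ, pow_two, derivative_mul, derivative_mul]
    simp
  constructor
  · apply hinj
    rw [map_zero, ← e3, ← h4, eval_map, hw', eval₂_at_apply]
  · apply hinj
    rw [map_zero, ← e4, ← h4, derivative_map, eval_map, hw', eval₂_at_apply]

lemma DD_eq_zero_of_double (w : Fin (m + 1) ⊕ Fin (n + 1) → K)
    (hd : w (Sum.inr (Fin.last n)) ≠ 0) (hn : 1 ≤ n) (c : K)
    (h1 : (FT w).eval c = 0) (h2 : (derivative (FT w)).eval c = 0) : DD w = 0 := by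
  have hdeg := (FT_natDegree w hd).1
  obtain ⟨p, q, _, _, hpq⟩ := exists_mul_add_mul_eq_C_resultant (m := n) (n := n - 1) (FT w)
    (derivative (FT w)) hdeg.le ((natDegree_derivative_le _).trans (by rw [hdeg])) (Or.inl (by omega))
  have := congrArg (eval c) hpq
  rw [eval_add, eval_mul, eval_mul, h1, h2, eval_C] at this
  rw [DD, ← this]; ring

end field

end Q279.BZ
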