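import Pool.Agent.Q279.BZ.Tail2

set_option autoImplicit false

namespace Q279.BZ
open Polynomial Filter Topology

lemma tendsto_of_approx (a : ℕ → ℕ → ℝ) (e δ : ℕ → ℝ) (D A B : ℝ)
    (ha : ∀ z, Tendsto (a z) atTop (𝓝 (δ z))) (hδ : Tendsto δ atTop (𝓝 D))
    (h : ∃ H0 : ℕ, ∀ z : ℕ, 1 ≤ z → ∀ H : ℕ, H0 ≤ H → |a z H - e H| ≤ A / H + B / z) :
    Tendsto e atTop (𝓝 D) := by
  obtain ⟨H0, h⟩ := h
  rw [Metric.tendsto_atTop]
  intro ε hε
  have hB : Tendsto (fun z : ℕ => B / (z : ℝ)) atTop (𝓝 0) := tendsto_const_div_atTop_nhds_zero_nat B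
  have hA : Tendsto (fun z : ℕ => A / (z : ℝ)) atTop (𝓝 0) := tendsto_const_div_atTop_nhds_zero_nat A
  obtain ⟨z1, hz1⟩ := Metric.tendsto_atTop.mp hδ (ε / 4) (by linarith)
  obtain ⟨z2, hz2⟩ := Metric.tendsto_atTop.mp hB (ε / 4) (by linarith)
  set z := max 1 (max z1 z2) with hz
  have e1 := hz1 z (le_trans (le_max_left _ _) (le_max_right _ _))
  have e2 := hz2 z (le_trans (le_max_right _ _) (le_max_right _ _))
  obtain ⟨H1, hH1⟩ := Metric.tendsto_atTop.mp (ha z) (ε / 4) (by linarith)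
  obtain ⟨H2, hH2⟩ := Metric.tendsto_atTop.mp hA (ε / 4) (by linarith)
  refine ⟨max H0 (max H1 H2), fun H hH => ?_⟩
  have e3 := hH1 H (le_trans (le_trans (le_max_left _ _) (le_max_right _ _)) hH)
  have e4 := hH2 H (le_trans (le_trans (le_max_right _ _) (le_max_right _ _)) hH)
  have e5 := h z (le_max_left _ _) H (le_trans (le_max_left _ _) hH)
  rw [Real.dist_eq] at *
  rw [sub_zero] at e2 e4
  have e6 := (abs_lt.mp e2).2
  have e7 := (abs_lt.mp e4).2
  have e8 := abs_lt.mp e1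
  have e9 := abs_lt.mp e3
  have e10 := abs_le.mp e5
  rw [abs_lt]
  constructor <;> linarith [e8.1, e8.2, e9.1, e9.2, e10.1, e10.2]

lemma euler_tendsto : Tendsto (fun z : ℕ => ∏ p ∈ Nat.primesBelow z, (1 - ((p : ℝ) ^ 2)⁻¹) ^ 2) atTop
    (𝓝 (36 / Real.pi ^ 4)) := by
  have h1 := riemannZeta_eulerProduct (s := 2) (by norm_num)
  have h2 : ∀ z : ℕ, (∏ p ∈ Nat.primesBelow z, (1 - (p : ℂ) ^ (-(2 : ℂ)))⁻¹) =
      ((∏ p ∈ Nat.primesBelow z, (1 - ((p : ℝ) ^ 2)⁻¹)⁻¹ : ℝ) : ℂ) := by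
    intro z
    push_cast
    apply Finset.prod_congr rfl
    intro p _
    rw [Complex.cpow_neg]
    norm_num
  have h3 : Tendsto (fun z : ℕ => ∏ p ∈ Nat.primesBelow z, (1 - ((p : ℝ) ^ 2)⁻¹)⁻¹) atTop
      (𝓝 (Real.pi ^ 2 / 6)) := by
    have h4 := (Complex.continuous_re.tendsto _).comp h1
    rw [riemannZeta_two] at h4
    have h5 : ((Real.pi : ℂ) ^ 2 / 6).re = Real.pi ^ 2 / 6 := by
      have : ((Real.pi : ℂ) ^ 2 / 6) = ((Real.pi ^ 2 / 6 : ℝ) : ℂ) := by push_cast; rfl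
      rw [this, Complex.ofReal_re]
    rw [h5] at h4
    refine h4.congr ?_
    intro z
    rw [Function.comp, h2, Complex.ofReal_re]
  have h6 : Tendsto (fun z : ℕ => ((∏ p ∈ Nat.primesBelow z, (1 - ((p : ℝ) ^ 2)⁻¹)⁻¹)⁻¹) ^ 2) atTop
      (𝓝 (((Real.pi ^ 2 / 6)⁻¹) ^ 2)) := (h3.inv₀ (by positivity)).pow 2
  have h7 : ((Real.pi ^ 2 / 6)⁻¹) ^ 2 = 36 / Real.pi ^ 4 := by
    have := Real.pi_pos.ne'
    field_simp
    norm_num
  rw [h7] at h6
  refine h6.congr ?_
  intro z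
  rw [← Finset.prod_inv_distrib, ← Finset.prod_pow]
  apply Finset.prod_congr rfl
  intro p _
  rw [inv_inv]

section lim
variable {m n : ℕ}

open Classical in
theorem density_E (hm : 2 ≤ m) (hn : 2 ≤ n) :
    Tendsto (fun H : ℕ => (((Box (sg m n) H).filter (fun w : Fin (m + 1) ⊕ Fin (n + 1) → ℤ =>
      RR w ≠ 0 ∧ ∀ p : ℕ, p.Prime → GG m n p (fun i => (w i : ZMod p)))).card : ℝ) /
      ((Box (sg m n) H).card : ℝ)) atTop (𝓝 (36 / Real.pi ^ 4)) := by
  obtain ⟨C1, hC1, hz⟩ := zero_count (sg m n) _ (RR_gv_ne_zero (m := m) (n := n))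
  obtain ⟨C2, hC2, H0, hl⟩ := large_count (m := m) (n := n) (by omega) (by omega)
  set a : ℕ → ℕ → ℝ := fun z H => ((((Box (sg m n) H).filter (fun w : Fin (m + 1) ⊕ Fin (n + 1) → ℤ =>
    ∀ p ∈ Nat.primesBelow z, GG m n p (fun i => (w i : ZMod p)))).card : ℕ) : ℝ) /
      ((Box (sg m n) H).card : ℝ) with ha
  apply tendsto_of_approx a _ (fun z : ℕ => ∏ p ∈ Nat.primesBelow z, (1 - ((p : ℝ) ^ 2)⁻¹) ^ 2)
    (36 / Real.pi ^ 4) (C1 + C2) (2 ^ (m + n + 4)) _ euler_tendsto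
  · -- approximation
    refine ⟨max 1 H0, fun z hz1 H hH => ?_⟩
    have hH1 : 1 ≤ H := le_trans (le_max_left _ _) hH
    have hH0 : H0 ≤ H := le_trans (le_max_right _ _) hH
    set Bx := Box (sg m n) H with hBx
    have hBpos : (0 : ℝ) < (Bx.card : ℝ) := by exact_mod_cast card_Box_pos _ _ hH1
    set E := Bx.filter (fun w : Fin (m + 1) ⊕ Fin (n + 1) → ℤ =>
      RR w ≠ 0 ∧ ∀ p : ℕ, p.Prime → GG m n p (fun i => (w i : ZMod p))) with hE
    set Ez := Bx.filter (fun w : Fin (m + 1) ⊕ Fin (n + 1) → ℤ =>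
      ∀ p ∈ Nat.primesBelow z, GG m n p (fun i => (w i : ZMod p))) with hEz
    set Z := Bx.filter (fun w => MvPolynomial.eval w
      (resultant (ff (gv m n)) (gg (gv m n)) m n) = 0) with hZ
    set L := Bx.filter (fun w : Fin (m + 1) ⊕ Fin (n + 1) → ℤ =>
      ∃ p : ℕ, p.Prime ∧ H < p ∧ ¬ GG m n p (fun i => (w i : ZMod p))) with hL
    set M : ℕ → Finset (Fin (m + 1) ⊕ Fin (n + 1) → ℤ) := fun p => Bx.filter
      (fun w : Fin (m + 1) ⊕ Fin (n + 1) → ℤ => ¬ GG m n p (fun i => (w i : ZMod p))) with hM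
    set PP := (Finset.Ioo (z - 1) (H + 1)).filter Nat.Prime with hPP
    have hsub1 : E ⊆ Ez := by
      intro w hw
      rw [hE, Finset.mem_filter] at hw
      rw [hEz, Finset.mem_filter]
      exact ⟨hw.1, fun p hp => hw.2.2 p (Nat.prime_of_mem_primesBelow hp)⟩
    have hsub2 : Ez ⊆ ((E ∪ Z) ∪ L) ∪ PP.biUnion M := by
      intro w hw
      rw [hEz, Finset.mem_filter] at hw
      obtain ⟨hwB, hw2⟩ := hw
      by_cases h1 : RR w = 0
      · apply Finset.mem_union_left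
        apply Finset.mem_union_left
        apply Finset.mem_union_right
        rw [hZ, Finset.mem_filter, eval_RR]
        exact ⟨hwB, h1⟩
      by_cases h2 : ∀ p : ℕ, p.Prime → GG m n p (fun i => (w i : ZMod p))
      · apply Finset.mem_union_left
        apply Finset.mem_union_left
        apply Finset.mem_union_left
        rw [hE, Finset.mem_filter]
        exact ⟨hwB, h1, h2⟩
      · push Not at h2
        obtain ⟨p, hp, hG⟩ := h2
        by_cases hpH : H < p
        · apply Finset.mem_union_left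
          apply Finset.mem_union_right
          rw [hL, Finset.mem_filter]
          exact ⟨hwB, p, hp, hpH, hG⟩
        · apply Finset.mem_union_right
          rw [Finset.mem_biUnion]
          refine ⟨p, ?_, ?_⟩
          · rw [hPP, Finset.mem_filter, Finset.mem_Ioo]
            refine ⟨⟨?_, by omega⟩, hp⟩
            by_contra hcon
            apply hG
            apply hw2
            rw [Nat.mem_primesBelow]
            exact ⟨by omega, hp⟩
          · rw [hM, Finset.mem_filter]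
            exact ⟨hwB, hG⟩
    have h3 : (Ez.card : ℝ) ≤ (E.card : ℝ) + (Z.card : ℝ) + (L.card : ℝ) +
        ∑ p ∈ PP, ((M p).card : ℝ) := by
      have h4 : Ez.card ≤ E.card + Z.card + L.card + ∑ p ∈ PP, (M p).card := by
        refine (Finset.card_le_card hsub2).trans ?_
        refine (Finset.card_union_le _ _).trans ?_
        refine Nat.add_le_add ?_ Finset.card_biUnion_le
        refine (Finset.card_union_le _ _).trans ?_
        exact Nat.add_le_add_right (Finset.card_union_le _ _) _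
      exact_mod_cast h4
    have h5 : ∑ p ∈ PP, ((M p).card : ℝ) ≤ 2 ^ (m + n + 4) / z * (Bx.card : ℝ) := by
      have h6 : ∀ p ∈ PP, ((M p).card : ℝ) ≤ 2 ^ (m + n + 3) * ((p : ℝ) ^ 2)⁻¹ * (Bx.card : ℝ) := by
        intro p hp
        rw [hPP, Finset.mem_filter, Finset.mem_Ioo] at hp
        have := medium_count hm hn p H hp.2 (by omega)
        rw [div_eq_mul_inv] at this
        exact this
      refine (Finset.sum_le_sum h6).trans ?_
      rw [← Finset.sum_mul, ← Finset.mul_sum]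
      apply mul_le_mul_of_nonneg_right _ hBpos.le
      have h7 : ∑ p ∈ PP, ((p : ℝ) ^ 2)⁻¹ ≤ ∑ p ∈ Finset.Ioo (z - 1) (H + 1), ((p : ℝ) ^ 2)⁻¹ := by
        apply Finset.sum_le_sum_of_subset_of_nonneg (Finset.filter_subset _ _)
        intro i _ _
        positivity
      have h8 := sum_Ioo_inv_sq_le (α := ℝ) (z - 1) (H + 1)
      have h9 : (((z - 1 : ℕ) : ℝ) + 1) = z := by
        rw [Nat.cast_sub hz1]; push_cast; ring
      rw [h9] at h8
      calc _ ≤ 2 ^ (m + n + 3) * (2 / (z : ℝ)) :=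
            mul_le_mul_of_nonneg_left (h7.trans h8) (by positivity)
        _ = _ := by ring
    have h10 := hz H hH1
    have h11 := hl H hH0
    have h12 : (E.card : ℝ) ≤ Ez.card := by exact_mod_cast Finset.card_le_card hsub1
    show |(Ez.card : ℝ) / (Bx.card : ℝ) - (E.card : ℝ) / (Bx.card : ℝ)| ≤ _
    rw [← sub_div, abs_of_nonneg (div_nonneg (by linarith) hBpos.le), div_le_iff₀ hBpos]
    have h13 : ((C1 + C2) / (H : ℝ) + 2 ^ (m + n + 4) / (z : ℝ)) * (Bx.card : ℝ) =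
        C1 / H * (Bx.card : ℝ) + C2 / H * (Bx.card : ℝ) + 2 ^ (m + n + 4) / z * (Bx.card : ℝ) := by
      ring
    rw [h13]
    linarith
  · intro z
    have h1 := crt_tendsto (sg m n) (Nat.primesBelow z)
      (fun p hp => Nat.prime_of_mem_primesBelow hp) (fun p t => GG m n p t)
    have h2 : ∏ p ∈ Nat.primesBelow z, ((Nat.card {t : Fin (m + 1) ⊕ Fin (n + 1) → ZMod p //
        GG m n p t} : ℝ) * ((p : ℝ)⁻¹) ^ (Fintype.card (Fin (m + 1) ⊕ Fin (n + 1)))) =
        ∏ p ∈ Nat.primesBelow z, (1 - ((p : ℝ) ^ 2)⁻¹) ^ 2 := by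
      apply Finset.prod_congr rfl
      intro p hp
      have hpp := Nat.prime_of_mem_primesBelow hp
      have hp0 : (p : ℝ) ≠ 0 := by exact_mod_cast hpp.ne_zero
      have h4 : Fintype.card (Fin (m + 1) ⊕ Fin (n + 1)) = m + n + 2 := by
        rw [Fintype.card_sum, Fintype.card_fin, Fintype.card_fin]; ring
      rw [card_GG hm hn p hpp, h4, inv_pow]
      field_simp
    rw [h2] at h1
    exact h1

open Classical in
theorem density_S :
    Tendsto (fun H : ℕ => (((Box (sg m n) H).filter (fun w : Fin (m + 1) ⊕ Fin (n + 1) → ℤ =>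
      RR w ≠ 0)).card : ℝ) / ((Box (sg m n) H).card : ℝ)) atTop (𝓝 1) := by
  obtain ⟨C1, hC1, hz⟩ := zero_count (sg m n) _ (RR_gv_ne_zero (m := m) (n := n))
  have hA : Tendsto (fun H : ℕ => C1 / (H : ℝ)) atTop (𝓝 0) := tendsto_const_div_atTop_nhds_zero_nat C1
  rw [tendsto_iff_norm_sub_tendsto_zero]
  apply squeeze_zero' (Eventually.of_forall (fun _ => norm_nonneg _)) _ hA
  filter_upwards [eventually_ge_atTop 1] with H hH
  set Bx := Box (sg m n) H with hBx
  have hBpos : (0 : ℝ) < (Bx.card : ℝ) := by exact_mod_cast card_Box_pos _ _ hH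
  have h1 : (Bx.filter (fun w : Fin (m + 1) ⊕ Fin (n + 1) → ℤ => RR w ≠ 0)).card +
      (Bx.filter (fun w => MvPolynomial.eval w
      (resultant (ff (gv m n)) (gg (gv m n)) m n) = 0)).card = Bx.card := by
    have h2 : Bx.filter (fun w => MvPolynomial.eval w
      (resultant (ff (gv m n)) (gg (gv m n)) m n) = 0) = Bx.filter (fun w => ¬ RR w ≠ 0) := by
      ext w
      rw [Finset.mem_filter, Finset.mem_filter, eval_RR, not_not]
    rw [h2]
    exact Finset.card_filter_add_card_filter_not _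
  have h3 := hz H hH
  rw [← hBx] at h3
  have h4 : ((Bx.filter (fun w : Fin (m + 1) ⊕ Fin (n + 1) → ℤ => RR w ≠ 0)).card : ℝ) +
      ((Bx.filter (fun w => MvPolynomial.eval w
      (resultant (ff (gv m n)) (gg (gv m n)) m n) = 0)).card : ℝ) = (Bx.card : ℝ) := by
    exact_mod_cast h1
  rw [Real.norm_eq_abs]
  have h5 : ((Bx.filter (fun w : Fin (m + 1) ⊕ Fin (n + 1) → ℤ => RR w ≠ 0)).card : ℝ) /
      (Bx.card : ℝ) - 1 = - (((Bx.filter (fun w => MvPolynomial.eval w
      (resultant (ff (gv m n)) (gg (gv m n)) m n) = 0)).card : ℝ) / (Bx.card : ℝ)) := by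
    field_simp
    linarith
  rw [h5, abs_neg, abs_of_nonneg (by positivity), div_le_iff₀ hBpos]
  convert h3

end lim

end Q279.BZ
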