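import Pool.Agent.Q279.BZ.Cramer

set_option autoImplicit false

namespace Q279.BZ
open Matrix Polynomial

section gen
variable {R : Type*} [CommRing R] {m n : ℕ}

lemma syl_image (f g : R[X]) (hf : f.natDegree ≤ m) (hg : g.natDegree ≤ n)
    (P : R[X]) (hP : P.degree < ((m + n : ℕ) : WithBot ℕ)) :
    (∃ x : Fin (m + n) → R, sylvester f g m n *ᵥ x = fun i : Fin (m + n) => P.coeff i) ↔
      ∃ u v : R[X], u.degree < (n : WithBot ℕ) ∧ v.degree < (m : WithBot ℕ) ∧ f * u + g * v = P := by
  set b1 := ((degreeLT.basis R m).prod (degreeLT.basis R n)).reindex finSumFinEquiv with hb1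
  set b2 := degreeLT.basis R (m + n) with hb2
  have key : ∀ pq, sylvester f g m n *ᵥ (b1.repr pq) = b2.repr (sylvesterMap f g hf hg pq) := by
    intro pq
    rw [← toMatrix_sylvesterMap' f g hf hg]
    exact LinearMap.toMatrix_mulVec_repr b1 b2 (sylvesterMap f g hf hg) pq
  constructor
  · rintro ⟨x, hx⟩
    obtain ⟨pq, h2⟩ : ∃ pq, ((b1.repr pq) : Fin (m + n) → R) = x := by
      refine ⟨b1.equivFun.symm x, ?_⟩
      have := b1.equivFun.apply_symm_apply x
      rwa [Module.Basis.equivFun_apply] at this
    have h1 := key pq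
    rw [h2, hx] at h1
    refine ⟨pq.2.1, pq.1.1, ?_, ?_, ?_⟩
    · exact Polynomial.mem_degreeLT.mp pq.2.2
    · exact Polynomial.mem_degreeLT.mp pq.1.2
    · have h3 : ∀ i : Fin (m + n), P.coeff i = (f * pq.2.1 + g * pq.1.1).coeff i := by
        intro i
        have := congrFun h1 i
        simpa [hb2, sylvesterMap] using this
      have h4 : (f * pq.2.1 + g * pq.1.1).degree < ((m + n : ℕ) : WithBot ℕ) := by
        have := (sylvesterMap f g hf hg pq).2
        rw [Polynomial.mem_degreeLT] at this
        simpa [sylvesterMap] using this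
      ext k
      by_cases hk : k < m + n
      · exact (h3 ⟨k, hk⟩).symm
      · have hk' : ((m + n : ℕ) : WithBot ℕ) ≤ (k : WithBot ℕ) := by exact_mod_cast not_lt.mp hk
        rw [coeff_eq_zero_of_degree_lt (lt_of_lt_of_le h4 hk'),
          coeff_eq_zero_of_degree_lt (lt_of_lt_of_le hP hk')]
  · rintro ⟨u, v, hu, hv, huv⟩
    refine ⟨b1.repr (⟨v, Polynomial.mem_degreeLT.mpr hv⟩, ⟨u, Polynomial.mem_degreeLT.mpr hu⟩), ?_⟩
    rw [key]
    ext i
    simp [hb2, sylvesterMap, huv]

end gen

/-- `1` together with the combinations `f u + g v` of bounded degree spans everything. -/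
def Good {K : Type*} [Field K] (m n : ℕ) (f g : K[X]) : Prop :=
  ∀ P : K[X], P.degree < ((m + n : ℕ) : WithBot ℕ) → ∃ c : K, ∃ u v : K[X],
    u.degree < (n : WithBot ℕ) ∧ v.degree < (m : WithBot ℕ) ∧ f * u + g * v + C c = P

/-- coefficient vector of `1` -/
noncomputable def onev (R : Type*) [CommRing R] (k : ℕ) : Fin k → R := fun i => (1 : R[X]).coeff i

section field
variable {K : Type*} [Field K] {m n : ℕ}

lemma onev_ne_zero (k : ℕ) (hk : 0 < k) : onev K k ≠ 0 := by
  intro h
  have := congrFun h ⟨0, hk⟩
  simp [onev] at this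

lemma good_iff_cramer (f g : K[X]) (hf : f.natDegree ≤ m) (hg : g.natDegree ≤ n)
    (hmn : 0 < m + n) :
    Good m n f g ↔ (sylvester f g m n).cramer (onev K (m + n)) ≠ 0 := by
  constructor
  · intro h
    apply cramer_ne_zero_of_span _ _ (onev_ne_zero _ hmn)
    intro y
    set P : K[X] := ((degreeLTEquiv K (m + n)).symm y).1 with hP
    have hPd : P.degree < ((m + n : ℕ) : WithBot ℕ) :=
      Polynomial.mem_degreeLT.mp ((degreeLTEquiv K (m + n)).symm y).2
    have hPc : (fun i : Fin (m + n) => P.coeff i) = y := by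
      have := (degreeLTEquiv K (m + n)).apply_symm_apply y
      rw [← this]
      rfl
    obtain ⟨c, u, v, hu, hv, huv⟩ := h P hPd
    have h1 : (P - C c).degree < ((m + n : ℕ) : WithBot ℕ) := by
      refine lt_of_le_of_lt (degree_sub_le _ _) (max_lt hPd ?_)
      refine lt_of_le_of_lt degree_C_le ?_
      exact_mod_cast hmn
    obtain ⟨x, hx⟩ := (syl_image f g hf hg (P - C c) h1).mpr ⟨u, v, hu, hv, by rw [← huv]; ring⟩
    refine ⟨x, c, ?_⟩
    rw [hx, ← hPc]
    ext i
    simp only [coeff_sub, Pi.add_apply, Pi.smul_apply, onev, smul_eq_mul]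
    rw [← coeff_C_mul, mul_one]; ring
  · intro h P hP
    obtain ⟨x, c, hx⟩ := span_of_cramer_ne_zero _ _ h (fun i : Fin (m + n) => P.coeff i)
    have h1 : (P - C c).degree < ((m + n : ℕ) : WithBot ℕ) := by
      refine lt_of_le_of_lt (degree_sub_le _ _) (max_lt hP ?_)
      refine lt_of_le_of_lt degree_C_le ?_
      exact_mod_cast hmn
    obtain ⟨u, v, hu, hv, huv⟩ := (syl_image f g hf hg (P - C c) h1).mp ⟨x, by
      ext i
      have := congrFun hx i
      simp only [Pi.add_apply, Pi.smul_apply, onev, smul_eq_mul] at this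
      rw [coeff_sub, ← this, ← coeff_C_mul, mul_one]; ring⟩
    exact ⟨c, u, v, hu, hv, by rw [huv]; ring⟩

lemma good_iff_gcd (f g : K[X]) (hf : f.natDegree ≤ m) (hg : g.natDegree ≤ n)
    (hm : 1 ≤ m) (hn : 1 ≤ n) [DecidableEq K] :
    Good m n f g ↔ (f.coeff m ≠ 0 ∨ g.coeff n ≠ 0) ∧ (EuclideanDomain.gcd f g).natDegree ≤ 1 := by
  have hX1 : (X : K[X]).degree < ((m + n : ℕ) : WithBot ℕ) := by
    rw [degree_X]; exact_mod_cast (by omega : 1 < m + n)
  constructor
  · intro h
    constructor
    · by_contra hcon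
      push Not at hcon
      obtain ⟨h1, h2⟩ := hcon
      have hXd : ((X : K[X]) ^ (m + n - 1)).degree < ((m + n : ℕ) : WithBot ℕ) := by
        rw [degree_X_pow]; exact_mod_cast (by omega : m + n - 1 < m + n)
      obtain ⟨c, u, v, hu, hv, huv⟩ := h (X ^ (m + n - 1)) hXd
      have hfd : f.degree < (m : WithBot ℕ) := by
        rw [degree_lt_iff_coeff_zero]
        intro k hk
        rcases Nat.eq_or_lt_of_le hk with h3 | h3
        · rw [← h3]; exact h1
        · exact coeff_eq_zero_of_natDegree_lt (lt_of_le_of_lt hf h3)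
      have hgd : g.degree < (n : WithBot ℕ) := by
        rw [degree_lt_iff_coeff_zero]
        intro k hk
        rcases Nat.eq_or_lt_of_le hk with h3 | h3
        · rw [← h3]; exact h2
        · exact coeff_eq_zero_of_natDegree_lt (lt_of_le_of_lt hg h3)
      have aux : ∀ (a b : K[X]) (s t : ℕ), 1 ≤ s → 1 ≤ t → s + t = m + n →
          a.degree < (s : WithBot ℕ) → b.degree < (t : WithBot ℕ) →
          (a * b).coeff (m + n - 1) = 0 := by
        intro a b s t hs ht hst ha hb
        by_cases ha0 : a = 0
        · simp [ha0]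
        by_cases hb0 : b = 0
        · simp [hb0]
        apply coeff_eq_zero_of_natDegree_lt
        have h5 : a.natDegree < s := (natDegree_lt_iff_degree_lt ha0).mpr ha
        have h6 : b.natDegree < t := (natDegree_lt_iff_degree_lt hb0).mpr hb
        calc (a * b).natDegree ≤ a.natDegree + b.natDegree := natDegree_mul_le
          _ < m + n - 1 := by omega
      have h7 : (f * u + g * v + C c).coeff (m + n - 1) = 0 := by
        rw [coeff_add, coeff_add, aux f u m n hm hn rfl hfd hu,
          aux g v n m hn hm (by omega) hgd hv, coeff_C_of_ne_zero (by omega)]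
        simp
      rw [huv, coeff_X_pow_self] at h7
      exact one_ne_zero h7
    · obtain ⟨c, u, v, hu, hv, huv⟩ := h X hX1
      have h1 : EuclideanDomain.gcd f g ∣ X - C c := by
        have : X - C c = f * u + g * v := by rw [← huv]; ring
        rw [this]
        exact dvd_add ((EuclideanDomain.gcd_dvd_left f g).mul_right u)
          ((EuclideanDomain.gcd_dvd_right f g).mul_right v)
      have h2 := natDegree_le_of_dvd h1 (X_sub_C_ne_zero c)
      rwa [natDegree_X_sub_C] at h2
  · rintro ⟨htop, hgcd⟩ P hP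
    set h := EuclideanDomain.gcd f g with hh
    have hh0 : h ≠ 0 := by
      intro h0
      rw [hh, EuclideanDomain.gcd_eq_zero_iff] at h0
      rcases htop with h1 | h1
      · rw [h0.1] at h1; simp at h1
      · rw [h0.2] at h1; simp at h1
    -- P = c + h * Q
    obtain ⟨c, Q, hcQ⟩ : ∃ c : K, ∃ Q : K[X], P = C c + h * Q := by
      refine ⟨(P % h).coeff 0, P / h, ?_⟩
      have h1 : (P % h).natDegree = 0 := by
        by_cases h2 : h.natDegree = 0
        · have h3 : IsUnit h := by
            rw [isUnit_iff_degree_eq_zero, degree_eq_natDegree hh0, h2]; rfl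
          have h4 : P % h = 0 := by
            rw [EuclideanDomain.mod_eq_zero]; exact h3.dvd
          rw [h4]; simp
        · have h5 : (P % h).degree < h.degree := EuclideanDomain.mod_lt P hh0
          by_cases h6 : P % h = 0
          · rw [h6]; simp
          · have := natDegree_lt_natDegree h6 h5
            omega
      rw [← eq_C_of_natDegree_eq_zero h1]
      exact (EuclideanDomain.mod_add_div P h).symm
    have hbez : h = f * EuclideanDomain.gcdA f g + g * EuclideanDomain.gcdB f g :=
      EuclideanDomain.gcd_eq_gcd_ab f g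
    set P' := P - C c with hP'
    have hP'd : P'.degree < ((m + n : ℕ) : WithBot ℕ) := by
      refine lt_of_le_of_lt (degree_sub_le _ _) (max_lt hP ?_)
      refine lt_of_le_of_lt degree_C_le ?_
      exact_mod_cast (by omega : 0 < m + n)
    have hP'e : P' = f * (EuclideanDomain.gcdA f g * Q) + g * (EuclideanDomain.gcdB f g * Q) := by
      have : P' = h * Q := by rw [hP', hcQ]; ring
      rw [this]
      nth_rewrite 1 [hbez]
      ring
    -- general reduction
    have red : ∀ (f g : K[X]) (m n : ℕ), f.natDegree ≤ m → g.natDegree ≤ n → 1 ≤ m → 1 ≤ n →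
        f.coeff m ≠ 0 → ∀ (P' a b : K[X]), P'.degree < ((m + n : ℕ) : WithBot ℕ) →
        P' = f * a + g * b → ∃ u v : K[X], u.degree < (n : WithBot ℕ) ∧ v.degree < (m : WithBot ℕ) ∧
        f * u + g * v = P' := by
      intro f g m n hf hg hm hn hfm P' a b hP' he
      have hf0 : f ≠ 0 := by rintro rfl; simp at hfm
      have hfd : f.natDegree = m := le_antisymm hf (le_natDegree_of_ne_zero hfm)
      refine ⟨a + g * (b / f), b % f, ?_, ?_, ?_⟩
      · have h1 : f * (a + g * (b / f)) = P' - g * (b % f) := by
          rw [he]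
          have := EuclideanDomain.mod_add_div b f
          nth_rewrite 2 [← this]
          ring
        by_cases h2 : a + g * (b / f) = 0
        · rw [h2, degree_zero]; exact WithBot.bot_lt_coe n
        have h3 : (P' - g * (b % f)).degree < ((m + n : ℕ) : WithBot ℕ) := by
          refine lt_of_le_of_lt (degree_sub_le _ _) (max_lt hP' ?_)
          by_cases hg0 : g = 0
          · rw [hg0, zero_mul, degree_zero]; exact WithBot.bot_lt_coe _
          by_cases hb0 : b % f = 0
          · rw [hb0, mul_zero, degree_zero]; exact WithBot.bot_lt_coe _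
          have h4 : (b % f).natDegree < m := by
            rw [← hfd]; exact natDegree_lt_natDegree hb0 (EuclideanDomain.mod_lt b hf0)
          rw [← natDegree_lt_iff_degree_lt (mul_ne_zero hg0 hb0), natDegree_mul hg0 hb0]
          omega
        rw [← h1, ← natDegree_lt_iff_degree_lt (mul_ne_zero hf0 h2), natDegree_mul hf0 h2] at h3
        rw [← natDegree_lt_iff_degree_lt h2]
        omega
      · rw [← hfd, ← degree_eq_natDegree hf0]
        exact EuclideanDomain.mod_lt b hf0
      · rw [he]
        have := EuclideanDomain.mod_add_div b f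
        nth_rewrite 3 [← this]
        ring
    rcases htop with h1 | h1
    · obtain ⟨u, v, hu, hv, huv⟩ := red f g m n hf hg hm hn h1 P' _ _ hP'd hP'e
      exact ⟨c, u, v, hu, hv, by rw [huv, hP']; ring⟩
    · obtain ⟨u, v, hu, hv, huv⟩ := red g f n m hg hf hn hm h1 P'
        (EuclideanDomain.gcdB f g * Q) (EuclideanDomain.gcdA f g * Q)
        (by rwa [add_comm n m]) (by rw [hP'e]; ring)
      exact ⟨c, v, u, hv, hu, by rw [add_comm (f * v), huv, hP']; ring⟩

end field

end Q279.BZ
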