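import Pool.Agent.Q279.BZ.Generic

set_option autoImplicit false

namespace Q279.BZ
open Polynomial Filter Topology

section tail
variable {m n : ℕ}

/-- which coordinates are leading coefficients -/
def sg (m n : ℕ) : Fin (m + 1) ⊕ Fin (n + 1) → Bool :=
  Sum.elim (fun i => decide (i = Fin.last m)) (fun i => decide (i = Fin.last n))

/-- local condition at `p` -/
def GG (m n : ℕ) (p : ℕ) (t : Fin (m + 1) ⊕ Fin (n + 1) → ZMod p) : Prop :=
  ∀ _h : Fact p.Prime, Good m n (ff t) (gg t)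

lemma mem_box_bounds {H : ℕ} {w : Fin (m + 1) ⊕ Fin (n + 1) → ℤ} (hw : w ∈ Box (sg m n) H)
    (i : Fin (m + 1) ⊕ Fin (n + 1)) : |w i| ≤ H := by
  rw [Box, Fintype.mem_piFinset] at hw
  have h := hw i
  unfold iv at h
  rw [abs_le]
  split_ifs at h
  · rw [Finset.mem_Ico] at h; omega
  · rw [Finset.mem_Ico] at h; omega

lemma mem_box_last {H : ℕ} {w : Fin (m + 1) ⊕ Fin (n + 1) → ℤ} (hw : w ∈ Box (sg m n) H) :
    (1 ≤ w (Sum.inl (Fin.last m)) ∧ w (Sum.inl (Fin.last m)) ≤ H) ∧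
      (1 ≤ w (Sum.inr (Fin.last n)) ∧ w (Sum.inr (Fin.last n)) ≤ H) := by
  rw [Box, Fintype.mem_piFinset] at hw
  have h1 := hw (Sum.inl (Fin.last m))
  have h2 := hw (Sum.inr (Fin.last n))
  simp only [sg, Sum.elim_inl, Sum.elim_inr, decide_true, iv, if_true, Finset.mem_Ico] at h1 h2
  omega

lemma cast_ne_zero_of_lt {p H : ℕ} (hp : H < p) {x : ℤ} (h1 : 1 ≤ x) (h2 : x ≤ H) :
    (x : ZMod p) ≠ 0 := by
  rw [Ne, ZMod.intCast_zmod_eq_zero_iff_dvd]
  intro h
  have := Int.le_of_dvd (by omega) h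
  omega

lemma FT_update (w : Fin (m + 1) ⊕ Fin (n + 1) → ℤ) (c : ℤ) :
    FT (Function.update w (Sum.inl 0) c) = FT w := by
  have h1 : gg (Function.update w (Sum.inl 0) c) = gg w := by
    unfold gg; congr 1
  have h2 : ft (Function.update w (Sum.inl 0) c) = ft w := by
    unfold ft; congr 1
    ext i
    by_cases hi : i = 0
    · simp [hi]
    · rw [if_neg hi, if_neg hi, Function.update_of_ne]
      intro h; exact hi (Sum.inl.inj h)
  rw [FT, h1, h2, FT]

lemma DD_update (w : Fin (m + 1) ⊕ Fin (n + 1) → ℤ) (c : ℤ) :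
    DD (Function.update w (Sum.inl 0) c) = DD w := by
  rw [DD, FT_update, DD]

lemma large_fail (hm : 1 ≤ m) (hn : 1 ≤ n) {H p : ℕ} (hp : Fact p.Prime) (hpH : H < p)
    {w : Fin (m + 1) ⊕ Fin (n + 1) → ℤ} (hw : w ∈ Box (sg m n) H)
    (hG : ¬ Good m n (ff (fun i => (w i : ZMod p))) (gg (fun i => (w i : ZMod p)))) :
    (p : ℤ) ∣ DD w ∧ ((FT w).map (Int.castRingHom (ZMod p))).eval ((w (Sum.inl 0) : ℤ) : ZMod p) = 0 := by
  classical
  obtain ⟨⟨h1, h2⟩, h3, h4⟩ := mem_box_last hw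
  have h5 := cast_ne_zero_of_lt hpH h1 h2
  have h6 := cast_ne_zero_of_lt hpH h3 h4
  set w' : Fin (m + 1) ⊕ Fin (n + 1) → ZMod p := fun i => (w i : ZMod p) with hw'
  rw [good_iff_gcd _ _ (natDegree_ff w') (natDegree_gg w') hm hn, not_and] at hG
  have h7 : (ff w').coeff m ≠ 0 := by
    rw [ff, coeff_pv, dif_pos (Nat.lt_succ_self m)]; exact h5
  have h8 := hG (Or.inl h7)
  obtain ⟨e1, e2⟩ := double_root w' h6 (EuclideanDomain.gcd (ff w') (gg w')) (by omega)
    (EuclideanDomain.gcd_dvd_left _ _) (EuclideanDomain.gcd_dvd_right _ _)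
  have e3 := DD_eq_zero_of_double w' h6 hn _ e1 e2
  have e4 : (FT w).map (Int.castRingHom (ZMod p)) = FT w' := FT_map _ _
  have e5 : (Int.castRingHom (ZMod p)) (DD w) = DD w' := DD_map _ _
  constructor
  · rw [← ZMod.intCast_zmod_eq_zero_iff_dvd]
    rw [e3] at e5; exact e5
  · rw [e4]; exact e1

lemma card_large_primes (D : ℤ) (hD : D ≠ 0) (C K H : ℕ) (hH : 2 ≤ H) (hC : C ≤ H)
    (hb : |D| ≤ (C : ℤ) * (H : ℤ) ^ K) : ((D.natAbs.primeFactors.filter (fun p => H < p)).card) ≤ K + 1 := by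
  set S := D.natAbs.primeFactors.filter (fun p => H < p) with hS
  have h1 : H ^ S.card ≤ ∏ p ∈ S, p := by
    rw [← Finset.prod_const]
    apply Finset.prod_le_prod' 
    intro p hp
    exact (Finset.mem_filter.mp hp).2.le
  have h2 : ∏ p ∈ S, p ∣ D.natAbs := by
    refine (Finset.prod_dvd_prod_of_subset _ _ _ (Finset.filter_subset _ _)).trans ?_
    exact Nat.prod_primeFactors_dvd _
  have h3 : ∏ p ∈ S, p ≤ D.natAbs := Nat.le_of_dvd (Int.natAbs_pos.mpr hD) h2
  have h4 : D.natAbs ≤ C * H ^ K := by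
    have : ((D.natAbs : ℕ) : ℤ) ≤ ((C * H ^ K : ℕ) : ℤ) := by
      rw [Int.natCast_natAbs]; push_cast; exact hb
    exact_mod_cast this
  have h5 : C * H ^ K ≤ H ^ (K + 1) := by
    rw [pow_succ, mul_comm (H ^ K)]
    exact Nat.mul_le_mul_right _ hC
  have h6 : H ^ S.card ≤ H ^ (K + 1) := h1.trans (h3.trans (h4.trans h5))
  exact (Nat.pow_le_pow_iff_right (by omega)).mp h6

open Classical in
lemma card_fiber (hn : 1 ≤ n) (w : Fin (m + 1) ⊕ Fin (n + 1) → ℤ) (C K H : ℕ)
    (hH : 2 ≤ H) (hC : C ≤ H) (hD : DD w ≠ 0) (hb : |DD w| ≤ (C : ℤ) * (H : ℤ) ^ K)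
    (hl : 1 ≤ w (Sum.inr (Fin.last n))) (hl' : w (Sum.inr (Fin.last n)) ≤ H) :
    ((Finset.Ico (-(H : ℤ)) ((H : ℤ) + 1)).filter (fun c : ℤ => ∃ p : ℕ, p.Prime ∧ H < p ∧
      (p : ℤ) ∣ DD w ∧ ((FT w).map (Int.castRingHom (ZMod p))).eval ((c : ℤ) : ZMod p) = 0)).card ≤
      (K + 1) * (n * 3) := by
  set S := (DD w).natAbs.primeFactors.filter (fun p => H < p) with hS
  have hScard : S.card ≤ K + 1 := card_large_primes (DD w) hD C K H hH hC hb
  have hsub : (Finset.Ico (-(H : ℤ)) ((H : ℤ) + 1)).filter (fun c : ℤ => ∃ p : ℕ, p.Prime ∧ H < p ∧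
      (p : ℤ) ∣ DD w ∧ ((FT w).map (Int.castRingHom (ZMod p))).eval ((c : ℤ) : ZMod p) = 0) ⊆
      Finset.univ.biUnion (fun p : S =>
        if h : Fact (p : ℕ).Prime then
          ((FT w).map (Int.castRingHom (ZMod p))).roots.toFinset.biUnion
            (fun r => (iv false H).filter (fun x : ℤ => (x : ZMod p) = r))
        else ∅) := by
    intro c hc
    rw [Finset.mem_filter] at hc
    obtain ⟨hc1, p, hp, hpH, hpD, hroot⟩ := hc
    rw [Finset.mem_biUnion]
    have hpS : p ∈ S := by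
      rw [hS, Finset.mem_filter, Nat.mem_primeFactors]
      exact ⟨⟨hp, Int.natCast_dvd.mp hpD, Int.natAbs_ne_zero.mpr hD⟩, hpH⟩
    have hfact : Fact p.Prime := ⟨hp⟩
    refine ⟨⟨p, hpS⟩, Finset.mem_univ _, ?_⟩
    rw [dif_pos hfact, Finset.mem_biUnion]
    have hne : (FT w).map (Int.castRingHom (ZMod p)) ≠ 0 := by
      rw [FT_map]
      exact (FT_natDegree _ (cast_ne_zero_of_lt hpH hl hl')).2
    refine ⟨(c : ZMod p), ?_, ?_⟩
    · rw [Multiset.mem_toFinset, mem_roots hne]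
      exact hroot
    · rw [Finset.mem_filter]
      refine ⟨?_, rfl⟩
      simpa [iv] using hc1
  refine (Finset.card_le_card hsub).trans ?_
  refine (Finset.card_biUnion_le).trans ?_
  have hbound : ∀ p : S, (if h : Fact (p : ℕ).Prime then
          ((FT w).map (Int.castRingHom (ZMod p))).roots.toFinset.biUnion
            (fun r => (iv false H).filter (fun x : ℤ => (x : ZMod p) = r))
        else ∅ : Finset ℤ).card ≤ n * 3 := by
    rintro ⟨p, hpS⟩
    have hpH : H < p := (Finset.mem_filter.mp hpS).2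
    split_ifs with hfact
    · refine (Finset.card_biUnion_le).trans ?_
      have hcnt : ∀ r ∈ ((FT w).map (Int.castRingHom (ZMod p))).roots.toFinset,
          ((iv false H).filter (fun x : ℤ => (x : ZMod p) = r)).card ≤ 3 := by
        intro r _
        have h1 := (abs_le.mp (cnt_bounds false H p r)).2
        rw [card_iv_false] at h1
        have hp0 : (0 : ℝ) < p := by exact_mod_cast (by omega : 0 < p)
        have h2 : (((2 * H + 1 : ℕ) : ℝ)) / p ≤ 2 := by
          rw [div_le_iff₀ hp0]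
          have : (2 * H + 1 : ℕ) ≤ 2 * p := by omega
          exact_mod_cast this
        have h3 : (((iv false H).filter (fun x : ℤ => (x : ZMod p) = r)).card : ℝ) ≤ 3 := by linarith
        exact_mod_cast h3
      refine (Finset.sum_le_sum hcnt).trans ?_
      rw [Finset.sum_const, smul_eq_mul]
      apply Nat.mul_le_mul_right
      have hdeg : ((FT w).map (Int.castRingHom (ZMod p))).natDegree = n := by
        rw [FT_map]
        exact (FT_natDegree _ (cast_ne_zero_of_lt hpH hl hl')).1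
      calc _ ≤ Multiset.card ((FT w).map (Int.castRingHom (ZMod p))).roots :=
            Multiset.toFinset_card_le _
        _ ≤ ((FT w).map (Int.castRingHom (ZMod p))).natDegree := card_roots' _
        _ = n := hdeg
    · simp
  refine (Finset.sum_le_sum (fun p _ => hbound p)).trans ?_
  rw [Finset.sum_const, smul_eq_mul]
  apply Nat.mul_le_mul_right
  simpa using hScard

end tail

end Q279.BZ
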