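import Pool.Agent.Q279.BZ.Tail

set_option autoImplicit false

namespace Q279.BZ
open Polynomial Filter Topology

section tail
variable {m n : ℕ}

open Classical in
theorem large_count (hm : 1 ≤ m) (hn : 1 ≤ n) : ∃ C' : ℝ, 0 ≤ C' ∧ ∃ H0 : ℕ, ∀ H : ℕ, H0 ≤ H →
    (((Box (sg m n) H).filter (fun w : Fin (m + 1) ⊕ Fin (n + 1) → ℤ =>
      ∃ p : ℕ, p.Prime ∧ H < p ∧ ¬ GG m n p (fun i => (w i : ZMod p)))).card : ℝ) ≤
      C' / H * ((Box (sg m n) H).card : ℝ) := by
  obtain ⟨C1, hC1, hz⟩ := zero_count (sg m n) (DD (gv m n)) (DD_gv_ne_zero hm hn)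
  obtain ⟨C, K, hCK⟩ := eval_bound (DD (gv m n))
  set B : ℕ := (K + 1) * (n * 3) with hB
  refine ⟨C1 + B, by positivity, max 2 C, ?_⟩
  intro H hH
  have hH2 : 2 ≤ H := le_trans (le_max_left _ _) hH
  have hHC : C ≤ H := le_trans (le_max_right _ _) hH
  set i0 : Fin (m + 1) ⊕ Fin (n + 1) := Sum.inl 0 with hi0
  set Bx := Box (sg m n) H with hBx
  set LF := Bx.filter (fun w : Fin (m + 1) ⊕ Fin (n + 1) → ℤ => DD w ≠ 0 ∧
      ∃ p : ℕ, p.Prime ∧ H < p ∧ ¬ GG m n p (fun i => (w i : ZMod p))) with hLF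
  have hsub : Bx.filter (fun w : Fin (m + 1) ⊕ Fin (n + 1) → ℤ =>
      ∃ p : ℕ, p.Prime ∧ H < p ∧ ¬ GG m n p (fun i => (w i : ZMod p))) ⊆
      Bx.filter (fun w => MvPolynomial.eval w (DD (gv m n)) = 0) ∪ LF := by
    intro w hw
    rw [Finset.mem_filter] at hw
    rw [Finset.mem_union, Finset.mem_filter, hLF, Finset.mem_filter, eval_DD]
    by_cases h : DD w = 0
    · left; exact ⟨hw.1, h⟩
    · right; exact ⟨hw.1, h, hw.2⟩
  -- fibers
  have hfib : ∀ a ∈ LF.image (fun w => Function.update w i0 0),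
      (LF.filter (fun x => Function.update x i0 0 = a)).card ≤ B := by
    intro a ha
    rw [Finset.mem_image] at ha
    obtain ⟨w, hw, rfl⟩ := ha
    rw [hLF, Finset.mem_filter] at hw
    obtain ⟨hwB, hwD, _⟩ := hw
    have hbd : |DD w| ≤ (C : ℤ) * (H : ℤ) ^ K := by
      rw [← eval_DD]
      exact hCK H (by omega) w (mem_box_bounds hwB)
    obtain ⟨_, h3, h4⟩ := mem_box_last hwB
    have h5 := card_fiber hn w C K H hH2 hHC hwD hbd h3 h4
    refine le_trans ?_ h5
    apply Finset.card_le_card_of_injOn (fun x => x i0)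
    · intro x hx
      simp only [Finset.coe_filter, Set.mem_ofPred_eq] at hx ⊢
      obtain ⟨hx1, hx2⟩ := hx
      rw [hLF, Finset.mem_filter] at hx1
      obtain ⟨hxB, hxD, p, hp, hpH, hG⟩ := hx1
      have hFT : FT x = FT w := by
        rw [← FT_update x 0, ← FT_update w 0]
        exact congrArg FT hx2
      have hDD : DD x = DD w := by
        rw [← DD_update x 0, ← DD_update w 0]
        exact congrArg DD hx2
      constructor
      · have := mem_box_bounds hxB i0
        rw [abs_le] at this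
        rw [Finset.mem_Ico]
        omega
      · unfold GG at hG
        push Not at hG
        obtain ⟨hfact, hG'⟩ := hG
        obtain ⟨e1, e2⟩ := large_fail hm hn hfact hpH hxB hG'
        rw [hDD] at e1
        rw [hFT] at e2
        exact ⟨p, hp, hpH, e1, e2⟩
    · intro x hx y hy hxy
      simp only [Finset.coe_filter, Set.mem_ofPred_eq] at hx hy
      have h1 : Function.update x i0 0 = Function.update y i0 0 := hx.2.trans hy.2.symm
      ext i
      by_cases hi : i = i0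
      · rw [hi]; exact hxy
      · have := congrFun h1 i
        rwa [Function.update_of_ne hi, Function.update_of_ne hi] at this
  have hcard := Finset.card_le_mul_card_image LF B hfib
  -- image
  set Bx' : Finset (Fin (m + 1) ⊕ Fin (n + 1) → ℤ) :=
    Fintype.piFinset (fun i => if i = i0 then {0} else iv (sg m n i) H) with hBx'
  have himg : LF.image (fun w => Function.update w i0 0) ⊆ Bx' := by
    intro a ha
    rw [Finset.mem_image] at ha
    obtain ⟨w, hw, rfl⟩ := ha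
    rw [hLF, Finset.mem_filter] at hw
    have hwB := hw.1
    rw [hBx, Box, Fintype.mem_piFinset] at hwB
    rw [hBx', Fintype.mem_piFinset]
    intro i
    by_cases hi : i = i0
    · rw [if_pos hi, hi, Function.update_self]; simp
    · rw [if_neg hi, Function.update_of_ne hi]; exact hwB i
  have hsg0 : sg m n i0 = false := by
    simp only [sg, hi0, Sum.elim_inl, decide_eq_false_iff_not]
    intro h
    have := congrArg Fin.val h
    simp at this
    omega
  have hcardB : (2 * H + 1) * Bx'.card = Bx.card := by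
    rw [hBx', hBx, Fintype.card_piFinset, card_Box]
    rw [← Finset.mul_prod_erase Finset.univ _ (Finset.mem_univ i0),
      ← Finset.mul_prod_erase Finset.univ (fun i => (iv (sg m n i) H).card) (Finset.mem_univ i0)]
    rw [if_pos rfl, Finset.card_singleton, one_mul, hsg0, card_iv_false]
    congr 1
    apply Finset.prod_congr rfl
    intro i hi
    rw [if_neg (Finset.ne_of_mem_erase hi)]
  have h6 : (LF.card : ℝ) ≤ (B : ℝ) / H * (Bx.card : ℝ) := by
    have h7 : LF.card ≤ B * Bx'.card := hcard.trans (Nat.mul_le_mul_left _ (Finset.card_le_card himg))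
    have h8 : (LF.card : ℝ) ≤ (B : ℝ) * (Bx'.card : ℝ) := by exact_mod_cast h7
    have hHpos : (0 : ℝ) < H := by exact_mod_cast (by omega : 0 < H)
    have h9 : (Bx.card : ℝ) = (2 * (H : ℝ) + 1) * (Bx'.card : ℝ) := by
      rw [← hcardB]; push_cast; ring
    rw [h9]
    refine h8.trans ?_
    have h10 : (B : ℝ) / H * ((2 * (H : ℝ) + 1) * (Bx'.card : ℝ)) =
        (B : ℝ) * (Bx'.card : ℝ) * ((2 * (H : ℝ) + 1) / H) := by ring
    rw [h10]
    have h11 : (1 : ℝ) ≤ (2 * (H : ℝ) + 1) / H := by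
      rw [le_div_iff₀ hHpos]; linarith
    exact le_mul_of_one_le_right (by positivity) h11
  have h12 := hz H (by omega)
  calc _ ≤ (((Bx.filter (fun w => MvPolynomial.eval w (DD (gv m n)) = 0) ∪ LF).card : ℕ) : ℝ) := by
        exact_mod_cast Finset.card_le_card hsub
    _ ≤ ((Bx.filter (fun w => MvPolynomial.eval w (DD (gv m n)) = 0)).card : ℝ) + (LF.card : ℝ) := by
        exact_mod_cast Finset.card_union_le _ _
    _ ≤ C1 / H * (Bx.card : ℝ) + (B : ℝ) / H * (Bx.card : ℝ) := add_le_add h12 h6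
    _ = _ := by ring

lemma card_GG (hm : 2 ≤ m) (hn : 2 ≤ n) (p : ℕ) (hp : p.Prime) :
    (Nat.card {t : Fin (m + 1) ⊕ Fin (n + 1) → ZMod p // GG m n p t} : ℝ) =
      (p : ℝ) ^ (m + n + 2) * (1 - ((p : ℝ) ^ 2)⁻¹) ^ 2 := by
  have hf : Fact p.Prime := ⟨hp⟩
  have h := card_good (K := ZMod p) m n hm hn
  rw [ZMod.card] at h
  rw [← h]
  congr 1
  apply Nat.card_congr
  apply Equiv.subtypeEquivRight
  intro t
  constructor
  · intro h1; exact h1 hf
  · intro h1 _; exact h1

lemma card_not_GG (hm : 2 ≤ m) (hn : 2 ≤ n) (p : ℕ) (hp : p.Prime) :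
    (Nat.card {t : Fin (m + 1) ⊕ Fin (n + 1) → ZMod p // ¬ GG m n p t} : ℝ) ≤
      2 * (p : ℝ) ^ (m + n) := by
  have hf : Fact p.Prime := ⟨hp⟩
  classical
  have h1 := card_GG hm hn p hp
  have h2 : Nat.card {t : Fin (m + 1) ⊕ Fin (n + 1) → ZMod p // GG m n p t} +
      Nat.card {t : Fin (m + 1) ⊕ Fin (n + 1) → ZMod p // ¬ GG m n p t} = p ^ (m + n + 2) := by
    rw [← Nat.card_sum, Nat.card_congr (Equiv.sumCompl (GG m n p)), Nat.card_fun, Nat.card_zmod,
      Nat.card_sum, Nat.card_fin, Nat.card_fin]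
    congr 1; ring
  have h3 : (Nat.card {t : Fin (m + 1) ⊕ Fin (n + 1) → ZMod p // GG m n p t} : ℝ) +
      (Nat.card {t : Fin (m + 1) ⊕ Fin (n + 1) → ZMod p // ¬ GG m n p t} : ℝ) =
      (p : ℝ) ^ (m + n + 2) := by exact_mod_cast h2
  have hp0 : (0 : ℝ) < p := by exact_mod_cast hp.pos
  have h4 : (p : ℝ) ^ (m + n + 2) * (1 - ((p : ℝ) ^ 2)⁻¹) ^ 2 =
      (p : ℝ) ^ (m + n + 2) - 2 * (p : ℝ) ^ (m + n) + (p : ℝ) ^ (m + n) * ((p : ℝ) ^ 2)⁻¹ := by
    field_simp
    ring
  have h5 : 0 ≤ (p : ℝ) ^ (m + n) * ((p : ℝ) ^ 2)⁻¹ := by positivity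
  rw [h1, h4] at h3
  linarith

open Classical in
lemma medium_count (hm : 2 ≤ m) (hn : 2 ≤ n) (p H : ℕ) (hp : p.Prime) (hpH : p ≤ H) :
    (((Box (sg m n) H).filter (fun w : Fin (m + 1) ⊕ Fin (n + 1) → ℤ =>
      ¬ GG m n p (fun i => (w i : ZMod p)))).card : ℝ) ≤
      2 ^ (m + n + 3) / (p : ℝ) ^ 2 * ((Box (sg m n) H).card : ℝ) := by
  have hf : Fact p.Prime := ⟨hp⟩
  set T : Finset (Fin (m + 1) ⊕ Fin (n + 1) → ZMod p) := Finset.univ.filter (fun t => ¬ GG m n p t)
  have h1 := res_card_le (sg m n) H p hpH T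
  have h2 : (Box (sg m n) H).filter (fun w : Fin (m + 1) ⊕ Fin (n + 1) → ℤ =>
      ¬ GG m n p (fun i => (w i : ZMod p))) =
      (Box (sg m n) H).filter (fun w => (fun i => (w i : ZMod p)) ∈ T) := by
    ext w
    simp [T]
  have h3 : (T.card : ℝ) ≤ 2 * (p : ℝ) ^ (m + n) := by
    have := card_not_GG hm hn p hp
    rw [Nat.card_eq_fintype_card, Fintype.card_subtype] at this
    exact this
  rw [h2]
  refine h1.trans ?_
  apply mul_le_mul_of_nonneg_right _ (Nat.cast_nonneg _)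
  have hp0 : (0 : ℝ) < p := by exact_mod_cast hp.pos
  have h4 : Fintype.card (Fin (m + 1) ⊕ Fin (n + 1)) = m + n + 2 := by
    rw [Fintype.card_sum, Fintype.card_fin, Fintype.card_fin]; ring
  rw [h4]
  calc (T.card : ℝ) * (2 / (p : ℝ)) ^ (m + n + 2) ≤
      2 * (p : ℝ) ^ (m + n) * (2 / (p : ℝ)) ^ (m + n + 2) :=
        mul_le_mul_of_nonneg_right h3 (by positivity)
    _ = 2 ^ (m + n + 3) / (p : ℝ) ^ 2 := by
        rw [div_pow]
        field_simp
        ring

end tail

end Q279.BZ
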